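import Pool.Agent.MP_249f74_an.H74.Bi
import Pool.Agent.MP_249f74_an.H2.Db4

/-!
Rigidity of pairs of mirrors.
-/

namespace Pool.Agent.MP_249f74_an.H74

theorem db4 {C : Type} [Field C] [IsAlgClosed C] : DB4 C :=
  fun _ _ _ _ _ _ _ e T H ν y h4 he => H2.Db.db4 h4 e he T H ν y

theorem bert {C ι k : Type} [Field C] [Fintype ι] [DecidableEq ι] [Field k] [Algebra k ℝ]
    [Algebra k C] [IsAlgClosed C] [CharZero C] : H18.BERT k C ι := bert' db4

end Pool.Agent.MP_249f74_an.H74
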