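import Pool.Agent.MP_249f74_an.H74.Ort

/-!
Rigidity: the mirror equation in all configurations.
-/

open Set Matrix
open MvPolynomial hiding funext

namespace Pool.Agent.MP_249f74_an.H74

open H17 (Der)
open H17.Cm (grad der_aeval)
open H90 (dv dv_apply dv_dot dv_smul dv_sub dv_add)

variable {C Ω κ : Type} [Field C] [Field Ω] [Algebra C Ω] [Fintype κ] [DecidableEq κ]
variable {E : Matrix κ κ C} {F G : MvPolynomial κ C} {q y w : κ → Ω} {d d' : ℕ}

variable (C) in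
/-- The local rigidity of dual billiards in dimension at least three. -/
def DB4 : Prop :=
  ∀ (Ω α : Type) [Field Ω] [CharZero Ω] [Algebra C Ω] [Fintype α] [DecidableEq α]
    (e : Matrix α α C) (T H ν y : α → Ω), 4 ≤ Fintype.card α → e.IsSymm → ν ≠ 0 → T ⬝ᵥ ν = 0 →
    (∀ D : Der C Ω, T ⬝ᵥ dv ν D = 0) →
    (∀ ξ, ξ ⬝ᵥ ν = 0 → (∀ D : Der C Ω, ξ ⬝ᵥ dv ν D = 0) → ∃ s : Ω, ξ = s • T) →
    (∀ η, η ⬝ᵥ ν = 0 → ∃ D : Der C Ω, dv T D = η) → H ⬝ᵥ ν = 0 → H ⬝ᵥ y = 0 →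
    (∀ D : Der C Ω, dv H D ⬝ᵥ y = 0) →
    (∀ D : Der C Ω, ee e H T * (dv T D ⬝ᵥ y) = T ⬝ᵥ y * (ee e H (dv T D) - H ⬝ᵥ dv ν D)) →
    ee e H T ≠ 0 → ee e H H ≠ 0 → T ⬝ᵥ y ≠ 0 →
    (∀ z, z ⬝ᵥ ν = 0 → z ⬝ᵥ y = 0 → ∃ D : Der C Ω, dv T D = 0 ∧ dv H D = z) →
    ∃ a : Matrix α α C, a.IsSymm ∧ a.map (algebraMap C Ω) *ᵥ T = ν ∧ ∃ s : Ω, s ≠ 0 ∧
      (a.map (algebraMap C Ω) - e.map (algebraMap C Ω)) *ᵥ H = s • y

/-- The kernel of a polynomial matrix is spanned by polynomial vectors. -/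
lemma ker_poly (A : Matrix κ κ (MvPolynomial κ C)) {K v : κ → Ω} (hv : A.map (aeval q) *ᵥ v = 0)
    (h : ∀ V : κ → MvPolynomial κ C, A.map (aeval q) *ᵥ (fun i => aeval q (V i)) = 0 →
      K ⬝ᵥ (fun i => aeval q (V i)) = 0) : K ⬝ᵥ v = 0 := by
  classical
  let k := IntermediateField.adjoin C (range q)
  have hk : ∀ P : MvPolynomial κ C, aeval q P ∈ k := fun P =>
    (IntermediateField.mem_adjoin_range_iff C q _).2 ⟨P, 1, by simp⟩
  have h1 : ∀ u : κ → k, A.map (aeval q) *ᵥ cv Ω u = 0 → K ⬝ᵥ cv Ω u = 0 := fun u hu => by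
    have : ∀ i, ∃ r s : MvPolynomial κ C, aeval q s ≠ 0 ∧ aeval q r = aeval q s * u i := fun i => by
      obtain ⟨r, s, e⟩ := (IntermediateField.mem_adjoin_range_iff C q _).1 (u i).2
      by_cases s0 : aeval q s = 0
      · exact ⟨0, 1, by simp, by simp [e, s0]⟩
      · exact ⟨r, s, s0, by rw [e, mul_div_cancel₀ _ s0]⟩
    choose r s s0 e using this
    have e2 : (fun i => aeval q (r i * ∏ j ∈ Finset.univ.erase i, s j)) =
        (∏ j, aeval q (s j)) • cv Ω u := funext fun i => by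
      rw [map_mul, map_prod, e, ← Finset.mul_prod_erase _ _ (Finset.mem_univ i)]
      simp only [Pi.smul_apply, cv_apply, smul_eq_mul, IntermediateField.algebraMap_apply]
      ring
    have := h _ (by rw [e2, mulVec_smul, hu, smul_zero])
    rw [e2, dotProduct_smul, smul_eq_zero] at this
    exact this.resolve_left (Finset.prod_ne_zero_iff.2 fun j _ => s0 j)
  let b := Module.Basis.ofVectorSpace k Ω
  let s := Finset.univ.biUnion fun i => (b.repr (v i)).support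
  have e : v = ∑ a ∈ s, b a • cv Ω fun i => b.repr (v i) a := funext fun i => by
    nth_rewrite 1 [← b.linearCombination_repr (v i)]
    rw [Finsupp.linearCombination_apply, Finsupp.sum_of_support_subset _
      (Finset.subset_biUnion_of_mem (fun i => (b.repr (v i)).support) (Finset.mem_univ i)) _
      (by simp), Finset.sum_apply]
    exact Finset.sum_congr rfl fun a _ => by simp [Algebra.smul_def, mul_comm]
  rw [e, dotProduct_sum]
  refine Finset.sum_eq_zero fun a _ => ?_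
  rw [dotProduct_smul, h1 _ (funext fun i => ?_), smul_zero]
  have h2 : ∑ j, (⟨_, hk (A i j)⟩ : k) • v j = 0 := congrFun hv i
  have h3 := congrArg (fun x => ((b.repr x a : k) : Ω)) h2
  simpa [mulVec, dotProduct] using h3

lemma dv_hs {θ : Der C Ω} (h : dv q θ = 0) (w : κ → Ω) :
    dv (hs F q *ᵥ w) θ = hs F q *ᵥ dv w θ := by
  ext i
  have := dv_dot (hs F q i) w θ
  rw [show dv (hs F q i) θ = 0 from (dv_grad θ q (pderiv i F)).trans (by rw [h, mulVec_zero]),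
    zero_dotProduct, zero_add] at this
  exact this

variable [CharZero Ω]

lemma GenK.ker (hF : Hyp F d) {v w : κ → Ω} (h : hs F q *ᵥ w = v) (hv : v ⬝ᵥ q = 0) :
    grad F q ⬝ᵥ w = 0 := by
  rw [← h, dotProduct_comm, symm_dot (hs_symm F q), hs_self hF.hom, dotProduct_smul, smul_eq_zero,
    or_iff_right hF.cast_ne, dotProduct_comm] at hv
  exact hv

lemma Cfg.dh (h : Cfg F G q y) (θ : Der C Ω) :
    dv (grad G y) θ ⬝ᵥ q + grad G y ⬝ᵥ dv q θ = 0 := by rw [← dv_dot, h.hq, map_zero]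

/-- Tangent covectors through `q` are derivatives with `q` fixed. -/
lemma Cfg.rot (h : Cfg F G q y) (hG : Hyp G d') (hw : grad G y ⬝ᵥ w = 0)
    (h0 : (hs G y *ᵥ w) ⬝ᵥ q = 0) : ∃ φ : Der C Ω, dv q φ = 0 ∧ dv y φ = w := by
  obtain ⟨θ, rfl⟩ := h.gy.sur hG.prime hw
  exact h.fix θ (by simpa [dv_grad, h0] using h.dh θ)

/-- The reflected tangent space. -/
lemma Cfg.bh (h : Cfg F G q y) (hF : Hyp F d) (hG : Hyp G d') (hb : BI E F G q y)
    (w1 : grad F q ⬝ᵥ w = 0) (w2 : grad G y ⬝ᵥ w = 0) :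
    ∃ w', grad G y ⬝ᵥ w' = 0 ∧ hs G y *ᵥ w' = ee E (grad G y) (grad F q) • hs F q *ᵥ w -
      ee E (grad G y) (hs F q *ᵥ w) • grad F q := by
  obtain ⟨k, hk⟩ := hb
  have S : ∀ w, grad F q ⬝ᵥ w = 0 → grad G y ⬝ᵥ w = 0 → (ee E (grad G y) (grad F q) • hs F q *ᵥ w -
      ee E (grad G y) (hs F q *ᵥ w) • grad F q) ⬝ᵥ y = 0 := fun w w1 w2 => by
    obtain ⟨θ, rfl⟩ := h.gq.sur hF.prime w1
    have := hk θ
    rw [w2, dv_grad] at this
    simp only [sub_dotProduct, smul_dotProduct, smul_eq_mul]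
    linear_combination this
  obtain ⟨w', e⟩ := symm_range (hs_symm G y) (K := ee E (grad G y) (grad F q) • hs F q *ᵥ w -
      ee E (grad G y) (hs F q *ᵥ w) • grad F q) fun v hv => by
    obtain ⟨φ, p1, p2⟩ := h.rot hG (GenK.ker hG hv (zero_dotProduct _)) (by simp [hv])
    have p3 : dv (grad G y) φ = 0 := by rw [dv_grad, p2, hv]
    have p4 : dv (grad F q) φ = 0 := by rw [dv_grad, p1, mulVec_zero]
    have a1 := dv_dot (grad F q) w φ
    have a2 := dv_dot (grad G y) w φ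
    rw [w1, p4, map_zero, zero_dotProduct, zero_add] at a1
    rw [w2, p3, map_zero, zero_dotProduct, zero_add] at a2
    have a3 := congrArg φ (S w w1 w2)
    have a4 := S _ a1.symm a2.symm
    rw [dv_dot, dv_sub, dv_smul, dv_smul, der_ee, der_ee, p3, p4, dv_hs p1, p2, map_zero] at a3
    simp only [ee, zero_dotProduct, mulVec_zero, dotProduct_zero, add_zero, zero_smul, zero_add,
      smul_zero] at a3 a4 ⊢
    linear_combination a3 - a4
  exact ⟨w', GenK.ker hG e (S w w1 w2), e⟩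

lemma GenK.lc_hs (h : GenK G y) (hG : Hyp G d') (hw : grad G y ⬝ᵥ w = 0) : Lc G (hs G y *ᵥ w) := by
  obtain ⟨θ, rfl⟩ := h.sur hG.prime hw
  exact dv_grad θ y G ▸ (lc_grad G y).dv θ

variable [IsAlgClosed C]

/-- The case of a fixed hyperplane that is not orthogonal. -/
lemma fixed (db : DB4 C) (hE : E.IsSymm) (hF : Hyp F d) (hG : Hyp G d') (hne : ¬G ∣ F)
    (h : Cfg F G q y) (hb : BI E F G q y) (e1 : ee E (grad G y) (grad F q) ≠ 0)
    (e2 : ee E (grad G y) (grad G y) ≠ 0) (nm : ∀ v, hs F q *ᵥ v = 0 → grad G y ⬝ᵥ v = 0)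
    (lq : ∀ K, Lc G K → K ⬝ᵥ q = 0 → ∀ v, hs F q *ᵥ v = 0 → K ⬝ᵥ v = 0) :
    Qh E F G ∨ V3 F G := by
  have ty := h.ty hF hG hne
  have bh := fun w => h.bh (w := w) hF hG hb
  obtain ⟨k, hk⟩ := hb
  have lq' : ∀ K, Lc G K → K ⬝ᵥ q = 0 → ∃ θ : Der C Ω, dv (grad F q) θ = K := fun K h1 h2 => by
    obtain ⟨w, e⟩ := symm_range (hs_symm F q) (lq K h1 h2)
    obtain ⟨θ, rfl⟩ := h.gq.sur hF.prime (GenK.ker hF e h2)
    exact ⟨θ, (dv_grad ..).trans e⟩
  obtain ⟨θ0, t0⟩ := lq' _ (lc_grad G y) h.hq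
  have Hy := h.gy.tq hG
  have k1 := hk θ0
  rw [t0, Hy, mul_zero, zero_sub] at k1
  have g0 : grad G y ⬝ᵥ dv q θ0 ≠ 0 := fun e => mul_ne_zero ty e2 (by
    rw [e, mul_zero, neg_eq_zero] at k1; exact k1)
  have dec : ∀ θ : Der C Ω, ∃ (w : κ → Ω) (s : Ω), grad F q ⬝ᵥ w = 0 ∧ grad G y ⬝ᵥ w = 0 ∧
      dv (grad F q) θ = hs F q *ᵥ w + s • grad G y := fun θ =>
    ⟨dv q θ - (grad G y ⬝ᵥ dv q θ / grad G y ⬝ᵥ dv q θ0) • dv q θ0, _, by simp [h.gq.tan],
      by simp [g0], by rw [mulVec_sub, mulVec_smul, ← dv_grad, ← dv_grad, t0, sub_add_cancel]⟩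
  obtain ⟨m, B, S, b1, b2⟩ := split_L G
  have dot : ∀ (K : Fin m → Ω) (z : κ → Ω), (K ᵥ* B.map (algebraMap C Ω)) ⬝ᵥ z =
      K ⬝ᵥ B.map (algebraMap C Ω) *ᵥ z := fun K z => (dotProduct_mulVec ..).symm
  have lcB : ∀ K : Fin m → Ω, Lc G (K ᵥ* B.map (algebraMap C Ω)) := fun K c hc => by
    rw [dot, cv_mulVec, (b2 c).2 hc, cv_eq_zero.2 rfl, dotProduct_zero]
  have BS : ∀ K : Fin m → Ω, (K ᵥ* B.map (algebraMap C Ω)) ᵥ* S.map (algebraMap C Ω) = K :=
    fun K => by rw [vecMul_vecMul, ← Matrix.map_mul, b1]; simp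
  have nzB : ∀ {P : MvPolynomial κ C} {n : ℕ} {z : κ → Ω}, GenK P z → Hyp P n →
      B.map (algebraMap C Ω) *ᵥ z ≠ 0 := fun hz hP e => h.gy.grad_ne hG.prime (by
    have : B = 0 := Matrix.ext fun a => congrFun (hz.linz hP (K := B a) (congrFun e a))
    rw [← (lc_grad G y).rep b1 b2, this]; simp)
  have lT : Lc G (grad F q) := fun c hc => by
    by_contra hn
    have h1 : ∀ K, Lc G K → K ⬝ᵥ q = 0 → K ⬝ᵥ y = 0 := fun K h1 h2 => by
      obtain ⟨θ, rfl⟩ := lq' K h1 h2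
      obtain ⟨w, s, w1, w2, e⟩ := dec θ
      obtain ⟨w', p1, p2⟩ := bh w w1 w2
      have a1 := h1 c hc
      have a2 := h.gy.lc_hs hG p1 c hc
      have a3 : (hs G y *ᵥ w') ⬝ᵥ y = 0 := by
        rw [dotProduct_comm, symm_dot (hs_symm G y), hs_self hG.hom, dotProduct_smul,
          dotProduct_comm, p1, smul_zero]
      rw [e, add_dotProduct, smul_dotProduct, lc_grad G y c hc, smul_zero, add_zero] at a1
      rw [p2, sub_dotProduct, smul_dotProduct, a1, smul_zero, zero_sub, neg_eq_zero,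
        smul_dotProduct, smul_eq_mul, mul_eq_zero, or_iff_left hn] at a2
      rw [p2, a2, zero_smul, sub_zero, smul_dotProduct, smul_eq_mul, mul_eq_zero,
        or_iff_right e1] at a3
      rw [e, add_dotProduct, a3, smul_dotProduct, Hy, smul_zero, add_zero]
    obtain ⟨w, w1, w2⟩ := exists_sep (h.ne hF hG hne)
    obtain ⟨θ, rfl⟩ := h.gq.sur hF.prime w1
    have a1 := h.dh θ
    have a2 : dv (grad G y) θ ⬝ᵥ y = 0 := by
      have := dv_dot (grad G y) y θ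
      rwa [Hy, map_zero, h.gy.tan, add_zero, eq_comm] at this
    refine nzB h.gy hG (eq_zero_of_dot fun K => ?_)
    have := h1 (K ᵥ* B.map (algebraMap C Ω) + ((K ᵥ* B.map (algebraMap C Ω)) ⬝ᵥ q) •
      dv (grad G y) θ) (fun c hc => by simp [lcB K c hc, (lc_grad G y).dv θ c hc]) (by
        rw [add_dotProduct, smul_dotProduct, smul_eq_mul]
        linear_combination ((K ᵥ* B.map (algebraMap C Ω)) ⬝ᵥ q) * (a1 - w2))
    rwa [add_dotProduct, smul_dotProduct, a2, smul_zero, add_zero, dot, dotProduct_comm] at this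
  have rH := (lc_grad G y).rep b1 b2
  have rT := lT.rep b1 b2
  obtain _ | _ | _ | _ | m := m
  · exact (h.gy.l3 hG 0 0 0 0 (by rw [← rH]; ext; simp [vecMul, dotProduct])).elim
  · exact (h.gy.l3 hG (B 0) 0 ((grad G y ᵥ* S.map (algebraMap C Ω)) 0) 0 (by
      nth_rewrite 1 [← rH]; ext; simp [vecMul, dotProduct])).elim
  · exact (h.gy.l3 hG (B 0) (B 1) ((grad G y ᵥ* S.map (algebraMap C Ω)) 0)
      ((grad G y ᵥ* S.map (algebraMap C Ω)) 1) (by
      nth_rewrite 1 [← rH]; ext; simp [vecMul, dotProduct])).elim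
  · exact .inr ⟨B, S, b1, b2, fun c hc => h.gq.dd_zero hF (lT c ((b2 c).1 hc))⟩
  left
  have eB : ∀ K K' : Fin (m + 4) → Ω, ee (B * E * Bᵀ) K K' =
      ee E (K ᵥ* B.map (algebraMap C Ω)) (K' ᵥ* B.map (algebraMap C Ω)) := fun K K' => by
    rw [ee, ee, dot, Matrix.map_mul, Matrix.map_mul, ← mulVec_mulVec, ← mulVec_mulVec,
      transpose_map, mulVec_transpose]
  have sB : (B * E * Bᵀ).IsSymm := by
    rw [IsSymm, transpose_mul, transpose_mul, transpose_transpose, hE.eq, Matrix.mul_assoc]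
  set T := grad F q ᵥ* S.map (algebraMap C Ω) with hT
  set H := grad G y ᵥ* S.map (algebraMap C Ω) with hH
  set c := ee E (grad G y) (grad G y) / grad G y ⬝ᵥ dv q θ0 with hc
  have c0 : c ≠ 0 := div_ne_zero e2 g0
  have dT : ∀ θ : Der C Ω, dv T θ ᵥ* B.map (algebraMap C Ω) = dv (grad F q) θ := fun θ => by
    rw [← dv_vecMul, rT]
  have dH : ∀ θ : Der C Ω, dv H θ ᵥ* B.map (algebraMap C Ω) = dv (grad G y) θ := fun θ => by
    rw [← dv_vecMul, rH]
  have n1 : ∀ K : Fin (m + 4) → Ω, K ⬝ᵥ c • B.map (algebraMap C Ω) *ᵥ q = 0 ↔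
      (K ᵥ* B.map (algebraMap C Ω)) ⬝ᵥ q = 0 := fun K => by
    rw [dotProduct_smul, smul_eq_zero, or_iff_right c0, dot]
  have n2 : ∀ (K : Fin (m + 4) → Ω) (θ : Der C Ω), (K ᵥ* B.map (algebraMap C Ω)) ⬝ᵥ q = 0 →
      K ⬝ᵥ dv (c • B.map (algebraMap C Ω) *ᵥ q) θ = c * (K ᵥ* B.map (algebraMap C Ω)) ⬝ᵥ dv q θ :=
    fun K θ e => by
      rw [dv_smul, dotProduct_add, dotProduct_smul, ← dot, e, smul_zero, zero_add, dv_mulVec,
        dotProduct_smul, dot, smul_eq_mul]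
  have Tq : (T ᵥ* B.map (algebraMap C Ω)) ⬝ᵥ q = 0 := by rw [rT, h.gq.tq hF]
  have Hq : (H ᵥ* B.map (algebraMap C Ω)) ⬝ᵥ q = 0 := by rw [rH, h.hq]
  obtain ⟨a, a1, a2, s, s0, a3⟩ := db Ω (Fin (m + 4)) (B * E * Bᵀ) T H
    (c • B.map (algebraMap C Ω) *ᵥ q) (B.map (algebraMap C Ω) *ᵥ y) (by simp) sB
    (smul_ne_zero c0 (nzB h.gq hF)) ((n1 T).2 Tq)
    (fun D => by rw [n2 T D Tq, rT, h.gq.tan, mul_zero])
    (fun ξ x1 x2 => by
      obtain ⟨s, e⟩ := par1 (T := grad F q) (K := ξ ᵥ* B.map (algebraMap C Ω)) fun w hw => by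
        obtain ⟨θ, rfl⟩ := h.gq.sur hF.prime hw
        have := x2 θ
        rwa [n2 ξ θ ((n1 ξ).1 x1), mul_eq_zero, or_iff_right c0] at this
      exact ⟨s, by rw [← BS ξ, e, smul_vecMul]⟩)
    (fun η x1 => by
      obtain ⟨θ, e⟩ := lq' _ (lcB η) ((n1 η).1 x1)
      exact ⟨θ, by rw [hT, dv_vecMul, e, BS]⟩)
    ((n1 H).2 Hq) (by rw [← dot, rH, Hy])
    (fun D => by
      have := dv_dot (grad G y) y D
      rwa [Hy, map_zero, h.gy.tan, add_zero, eq_comm, ← dH, dot] at this)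
    (fun D => by
      rw [n2 H D Hq, eB, eB, ← dot, ← dot, dT, rT, rH, hc]
      field_simp
      linear_combination (grad G y ⬝ᵥ dv q θ0) * hk D - (grad G y ⬝ᵥ dv q D) * k1)
    (by rwa [eB, rT, rH]) (by rwa [eB, rH]) (by rwa [← dot, rT])
    (fun z z1 z2 => by
      rw [n1] at z1
      rw [← dot] at z2
      obtain ⟨θ, e⟩ := lq' _ (lcB z) z1
      obtain ⟨w, s, w1, w2, e'⟩ := dec θ
      obtain ⟨w', p1, p2⟩ := bh w w1 w2
      have a3 : (hs G y *ᵥ w') ⬝ᵥ y = 0 := by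
        rw [dotProduct_comm, symm_dot (hs_symm G y), hs_self hG.hom, dotProduct_smul,
          dotProduct_comm, p1, smul_zero]
      have a4 : (hs F q *ᵥ w) ⬝ᵥ y = 0 := by
        rwa [← e, e', add_dotProduct, smul_dotProduct, Hy, smul_zero, add_zero] at z2
      rw [p2, sub_dotProduct, smul_dotProduct, a4, smul_zero, zero_sub, neg_eq_zero,
        smul_dotProduct, smul_eq_mul, mul_eq_zero, or_iff_left ty] at a3
      rw [a3, zero_smul, sub_zero] at p2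
      have a5 : hs G y *ᵥ ((ee E (grad G y) (grad F q))⁻¹ • w' + (s / ((d' - 1 : ℕ) : Ω)) • y) =
          z ᵥ* B.map (algebraMap C Ω) := by
        rw [mulVec_add, mulVec_smul, mulVec_smul, p2, hs_self hG.hom, smul_smul, smul_smul,
          inv_mul_cancel₀ e1, div_mul_cancel₀ _ hG.cast_ne, one_smul, ← e', e]
      obtain ⟨φ, f1, f2⟩ := h.rot hG (GenK.ker hG a5 z2) (by rwa [a5])
      exact ⟨φ, by rw [hT, dv_vecMul, dv_grad, f1]; simp,
        by rw [hH, dv_vecMul, dv_grad, f2, a5, BS]⟩)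
  rw [← Matrix.map_sub _ (map_sub _)] at a3
  have fin : ∀ {P : MvPolynomial κ C} {n : ℕ} {z : κ → Ω} {a : Matrix (Fin (m + 4)) _ C}
      {t : Fin (m + 4) → Ω} {s : Ω}, GenK P z → Hyp P n → a.IsSymm → s ≠ 0 →
      a.map (algebraMap C Ω) *ᵥ t = s • B.map (algebraMap C Ω) *ᵥ z →
      t ᵥ* B.map (algebraMap C Ω) = grad P z → IsUnit a.det ∧ (Bᵀ * a⁻¹ * B).IsSymm ∧
        Bᵀ * a⁻¹ * B ≠ 0 ∧ P ∣ qf (Bᵀ * a⁻¹ * B) := fun {P n z a t s} hz hP ha s0 e r => by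
    have u : IsUnit a.det := Ne.isUnit fun e0 => by
      obtain ⟨v, v0, hv⟩ := exists_mulVec_eq_zero_iff.2 e0
      have h1 : cv Ω v ⬝ᵥ a.map (algebraMap C Ω) *ᵥ t = 0 := by
        rw [symm_dot (ha.map _), cv_mulVec, hv, cv_eq_zero.2 rfl, dotProduct_zero]
      rw [e, dotProduct_smul, smul_eq_zero, or_iff_right s0, ← dot, ← mulVec_transpose,
        ← transpose_map, cv_mulVec] at h1
      have h2 := congrArg (Sᵀ *ᵥ ·) (hz.linz hP h1)
      simp only [mulVec_mulVec, ← transpose_mul, b1, transpose_one, one_mulVec, mulVec_zero] at h2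
      exact v0 h2
    have e' : s • ((Bᵀ * a⁻¹ * B).map (algebraMap C Ω) *ᵥ z) = grad P z := by
      rw [Matrix.map_mul, ← mulVec_mulVec, ← mulVec_smul, ← e, mulVec_mulVec, ← Matrix.map_mul,
        Matrix.mul_assoc, nonsing_inv_mul _ u, Matrix.mul_one, transpose_map, mulVec_transpose, r]
    refine ⟨u, ?_, fun e0 => hz.grad_ne hP.prime (by rw [← e', e0]; simp), (hz _).1 ?_⟩
    · rw [IsSymm, transpose_mul, transpose_mul, transpose_transpose, transpose_nonsing_inv, ha.eq,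
        Matrix.mul_assoc]
    · have := hz.tq hP
      rwa [← e', smul_dotProduct, smul_eq_zero, or_iff_right s0, dotProduct_comm, ← ee,
        ← aeval_qf] at this
  obtain ⟨u1, u2, u3, u4⟩ := fin h.gq hF a1 c0 a2 rT
  obtain ⟨v1, v2, v3, v4⟩ := fin h.gy hG (a1.sub sB) s0 a3 rH
  refine ⟨_, _, u2, v2, u3, v3, ?_, u4, v4⟩
  have : (a - B * E * Bᵀ)⁻¹ - a⁻¹ = a⁻¹ * (B * E * Bᵀ) * (a - B * E * Bᵀ)⁻¹ := by
    nth_rewrite 2 [← sub_sub_cancel a (B * E * Bᵀ)]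
    rw [Matrix.mul_sub, Matrix.sub_mul, nonsing_inv_mul _ u1, Matrix.one_mul,
      Matrix.mul_assoc a⁻¹, mul_nonsing_inv _ v1, Matrix.mul_one]
  rw [← Matrix.sub_mul, ← Matrix.mul_sub, this]
  simp only [Matrix.mul_assoc]

/-- The mirror equation in all configurations. -/
theorem core [CharZero C] (db : DB4 C) (hE : E.IsSymm) (hF : Hyp F d) (hG : Hyp G d') (hne : ¬G ∣ F)
    (ni : ∀ (Ω : Type) [Field Ω] [Algebra C Ω] (y : κ → Ω), GenK G y →
      ee E (grad G y) (grad G y) ≠ 0)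
    (hb : ∀ (Ω : Type) [Field Ω] [IsAlgClosed Ω] [CharZero Ω] [Algebra C Ω] (q y : κ → Ω),
      Cfg F G q y → Fr C q y → BI E F G q y) :
    Wh E G F ∨ Wh E F G ∨ Qh E F G ∨ V3 F G := by
  by_contra hn
  simp only [not_or] at hn
  obtain ⟨n1, n2, n3, n4⟩ := hn
  have nm : ∀ (Ω : Type) [Field Ω] [IsAlgClosed Ω] [CharZero Ω] [Algebra C Ω] (q y : κ → Ω),
      Cfg F G q y → Fr C q y → ∀ v, hs F q *ᵥ v = 0 → grad G y ⬝ᵥ v = 0 :=
    fun Ω _ _ _ _ q y h h' v hv => by_contra fun h0 => by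
      obtain ⟨θ, rfl⟩ := h.gq.sur hF.prime (GenK.ker hF hv (zero_dotProduct _))
      exact n1 (mov hE hF hG hne h (hb Ω q y h h') ((dv_grad ..).trans hv) h0)
  refine n2 ?_
  obtain ⟨K, _, -, _, -, -, y0, hy⟩ := gen0 (C := C) hG.prime
  have : CharZero K := charZero_of_injective_algebraMap (algebraMap C K).injective
  refine nform hF hG hy fun K1 K2 h1 h2 => ?_
  have e : ∀ K : κ → C, ∑ i, MvPolynomial.C (K i) * dd (E i) F = dd (E *ᵥ K) F := fun K => by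
    simp only [dd, Finset.mul_sum, mulVec, dotProduct, map_sum, Finset.sum_mul, map_mul]
    rw [Finset.sum_comm]
    exact Finset.sum_congr rfl fun i _ => Finset.sum_congr rfl fun j _ => by
      rw [hE.apply i j]; ring
  rw [← e, ← e]
  refine ort hF hG hne _ (fun Ω _ _ _ _ q y h h' => by_contra fun h0 => ?_) h1 h2
  refine (fixed db hE hF hG hne h (hb Ω q y h h') (fun e => h0 ?_) (ni Ω y h.gy) (nm Ω q y h h')
    fun K k1 k2 v hv => ?_).elim n3 n4
  · rw [← e, ee]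
    congr 1
    ext i
    rw [aeval_dd, dotProduct_comm]; rfl
  refine ker_poly (q := q) (Matrix.of fun i j => pderiv j (pderiv i F)) hv fun V hV => ?_
  obtain ⟨m, B, S, b1, b2⟩ := split_L G
  have hd : ∀ i, F ∣ ∑ j, pderiv j (pderiv i F) * V j := fun i => (h.gq _).1 (by
    simpa [mulVec, dotProduct] using congrFun hV i)
  have r : ∀ a b, (B.map (algebraMap C Ω) *ᵥ q) a * (B.map (algebraMap C Ω) *ᵥ fun i =>
      aeval q (V i)) b = (B.map (algebraMap C Ω) *ᵥ q) b * (B.map (algebraMap C Ω) *ᵥ fun i =>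
      aeval q (V i)) a := fun a b => by
    have := (h.gq _).2 (ort hF hG hne V (fun Ω _ _ _ _ q y h h' => nm Ω q y h h' _
      (funext fun i => by simpa [hs, mulVec, dotProduct] using (h.gq _).2 (hd i)))
      (lc_row b2 a) (lc_row b2 b))
    simpa [aeval_lf, sub_eq_zero, mulVec, dotProduct] using this
  obtain ⟨a, ha⟩ : ∃ a, (B.map (algebraMap C Ω) *ᵥ q) a ≠ 0 := by
    by_contra h0
    push Not at h0
    have : B = 0 := Matrix.ext fun a => congrFun (h.gq.linz hF (K := B a) (h0 a))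
    exact h.gy.grad_ne hG.prime (by rw [← (lc_grad G y).rep b1 b2, this]; simp)
  rw [← k1.rep b1 b2, ← dotProduct_mulVec] at k2 ⊢
  refine mul_left_cancel₀ ha ?_
  generalize K ᵥ* S.map (algebraMap C Ω) = t at k2 ⊢
  rw [mul_zero, ← zero_mul ((B.map (algebraMap C Ω) *ᵥ fun i => aeval q (V i)) a), ← k2,
    dotProduct, dotProduct, Finset.mul_sum, Finset.sum_mul]
  exact Finset.sum_congr rfl fun b _ => by linear_combination t b * r a b

end Pool.Agent.MP_249f74_an.H74
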