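import Pool.Agent.MP_249f74_an.H74.Lin

/-!
Generic points of hypersurfaces.
-/

open Set Matrix MvPolynomial

namespace Pool.Agent.MP_249f74_an.H74

open H17 (Der)
open H17.Cm (grad der_aeval)
open H96 (ext_indep indep_bot)
open H90 (dv dv_apply dv_dot dv_smul indep_of_dual)

variable {C Ω κ : Type} [Field C] [Field Ω] [Algebra C Ω] [Fintype κ] [DecidableEq κ]

/-- Generic points. -/
def GenK (F : MvPolynomial κ C) (q : κ → Ω) : Prop := ∀ G, aeval q G = 0 ↔ F ∣ G

/-- The Hessian at a point. -/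
noncomputable def hs (F : MvPolynomial κ C) (q : κ → Ω) : Matrix κ κ Ω :=
  Matrix.of fun i j => aeval q (pderiv j (pderiv i F))

/-- A linear form. -/
noncomputable def lf (K : κ → C) : MvPolynomial κ C := ∑ i, MvPolynomial.C (K i) * X i

/-- A directional derivative. -/
noncomputable def dd (c : κ → C) (F : MvPolynomial κ C) : MvPolynomial κ C :=
  ∑ i, MvPolynomial.C (c i) * pderiv i F

variable {F G : MvPolynomial κ C} {q y w : κ → Ω} {K c : κ → C} {d : ℕ}

section Basic

lemma der_ev (θ : Der C Ω) (q : κ → Ω) (F : MvPolynomial κ C) :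
    θ (aeval q F) = grad F q ⬝ᵥ dv q θ := der_aeval θ q F

lemma dv_grad (θ : Der C Ω) (q : κ → Ω) (F : MvPolynomial κ C) :
    dv (grad F q) θ = hs F q *ᵥ dv q θ := funext fun i => der_ev θ q (pderiv i F)

omit [Fintype κ] in
lemma pderiv_comm (i j : κ) (p : MvPolynomial κ C) :
    pderiv i (pderiv j p) = pderiv j (pderiv i p) := by
  induction p using MvPolynomial.induction_on with
  | C a => simp
  | add p q hp hq => simp [hp, hq]
  | mul_X p l hp =>
    have h : ∀ a b : κ, pderiv a (pderiv b (X l : MvPolynomial κ C)) = 0 := fun a b => by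
      rw [pderiv_X, Pi.single_apply]
      split_ifs <;> simp
    simp only [Derivation.leibniz, smul_eq_mul, map_add, h, hp]
    ring

omit [Fintype κ] in
lemma hs_symm (F : MvPolynomial κ C) (q : κ → Ω) : (hs F q).IsSymm := by
  ext i j; simp [hs, pderiv_comm]

omit [DecidableEq κ] in
lemma euler (h : F.IsHomogeneous d) (q : κ → Ω) : grad F q ⬝ᵥ q = d * aeval q F := by
  have := congrArg (aeval q) h.sum_X_mul_pderiv
  simpa [grad, dotProduct, mul_comm] using this

omit [DecidableEq κ] in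
lemma hs_self (h : F.IsHomogeneous d) (q : κ → Ω) :
    hs F q *ᵥ q = ((d - 1 : ℕ) : Ω) • grad F q := funext fun i => euler (h.pderiv (i := i)) q

omit [DecidableEq κ] in
lemma aeval_lf (K : κ → C) (q : κ → Ω) : aeval q (lf K) = cv Ω K ⬝ᵥ q := by
  simp [lf, dotProduct]

omit [DecidableEq κ] in
lemma aeval_dd (c : κ → C) (F : MvPolynomial κ C) (q : κ → Ω) :
    aeval q (dd c F) = grad F q ⬝ᵥ cv Ω c := by
  simp [dd, dotProduct, grad, mul_comm]

omit [DecidableEq κ] in
lemma lf_hom (K : κ → C) : (lf K).IsHomogeneous 1 :=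
  IsHomogeneous.sum _ _ _ fun i _ => isHomogeneous_C_mul_X _ i

lemma pderiv_lf (K : κ → C) (i : κ) : pderiv i (lf K) = MvPolynomial.C (K i) := by
  simp [lf, pderiv_X, Pi.single_apply]

lemma lf_eq_zero (h : lf K = 0) : K = 0 := funext fun i => by
  have := pderiv_lf K i
  rw [h, map_zero, eq_comm, C_eq_zero] at this
  exact this

lemma lf_prime (h : K ≠ 0) : Prime (lf K) := by
  refine (irreducible_of_totalDegree_eq_one
    ((lf_hom K).totalDegree fun e => h (lf_eq_zero e)) fun x hx => ?_).prime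
  refine Ne.isUnit fun x0 => h (lf_eq_zero ?_)
  ext i
  simpa [x0] using hx i

omit [DecidableEq κ] in
lemma lf_add (a b : κ → C) : lf (a + b) = lf a + lf b := by
  simp [lf, add_mul, Finset.sum_add_distrib]

omit [DecidableEq κ] in
lemma lf_smul (s : C) (a : κ → C) : lf (s • a) = MvPolynomial.C s * lf a := by
  simp [lf, Finset.mul_sum, mul_assoc]

omit [DecidableEq κ] in
lemma dd_add (a b : κ → C) (F : MvPolynomial κ C) : dd (a + b) F = dd a F + dd b F := by
  simp [dd, add_mul, Finset.sum_add_distrib]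

omit [DecidableEq κ] in
lemma dd_smul (s : C) (a : κ → C) (F : MvPolynomial κ C) :
    dd (s • a) F = MvPolynomial.C s * dd a F := by
  simp [dd, Finset.mul_sum, mul_assoc]

omit [DecidableEq κ] in
lemma dd_hom (h : F.IsHomogeneous d) (c : κ → C) : (dd c F).IsHomogeneous (d - 1) :=
  IsHomogeneous.sum _ _ _ fun i _ => by
    simpa using (isHomogeneous_C κ (c i)).mul (h.pderiv (i := i))

omit [Fintype κ] [DecidableEq κ] in
lemma hom_eq_zero {e : ℕ} (h : F.IsHomogeneous d) (h0 : F ≠ 0) (hG : G.IsHomogeneous e) (he : e < d)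
    (hd : F ∣ G) : G = 0 := by
  by_contra hn
  have := totalDegree_le_of_dvd_of_isDomain hd hn
  rw [h.totalDegree h0, hG.totalDegree hn] at this
  omega

omit [Fintype κ] [DecidableEq κ] in
lemma hom_eq_smul (h : F.IsHomogeneous d) (h0 : F ≠ 0) (hG : G.IsHomogeneous d)
    (hd : F ∣ G) : ∃ s, G = MvPolynomial.C s * F := by
  obtain ⟨A, rfl⟩ := hd
  by_cases a0 : A = 0
  · exact ⟨0, by simp [a0]⟩
  have h1 := hG.totalDegree (mul_ne_zero h0 a0)
  rw [totalDegree_mul_of_isDomain h0 a0, h.totalDegree h0, add_eq_left,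
    totalDegree_eq_zero_iff_eq_C] at h1
  exact ⟨_, by rw [← h1, mul_comm]⟩

end Basic

section GenK

omit [Fintype κ] [DecidableEq κ] in
lemma GenK.zero (h : GenK F q) : aeval q F = 0 := (h F).2 dvd_rfl

lemma GenK.tan (h : GenK F q) (θ : Der C Ω) : grad F q ⬝ᵥ dv q θ = 0 := by
  rw [← der_ev, h.zero, map_zero]

omit [Fintype κ] [DecidableEq κ] in
lemma GenK.map {Ω' : Type} [Field Ω'] [Algebra C Ω'] (h : GenK F q) (φ : Ω →ₐ[C] Ω') :
    GenK F fun i => φ (q i) := fun G => by
  rw [← h G, ← map_eq_zero_iff φ φ.injective, comp_aeval_apply]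

omit [Fintype κ] in
lemma GenK.indep (h : GenK F q) {i : κ} (hi : pderiv i F ≠ 0) :
    AlgebraicIndependent C fun j : {j // j ≠ i} => q j := by
  refine algebraicIndependent_iff.2 fun P hP => by_contra fun hn => hi ?_
  obtain ⟨A, hA⟩ := (h (rename (↑) P)).1 (by rw [aeval_rename]; exact hP)
  have h0 : rename ((↑) : {j // j ≠ i} → κ) P ≠ 0 := fun e =>
    hn (rename_injective _ Subtype.val_injective (e.trans (map_zero _).symm))
  have h1 : degreeOf i (rename ((↑) : {j // j ≠ i} → κ) P) = 0 := by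
    rw [← Nat.le_zero, degreeOf_le_iff]
    intro m hm
    obtain ⟨u, rfl, -⟩ := coeff_rename_ne_zero _ _ _ (mem_support_iff.1 hm)
    rw [Finsupp.mapDomain_notin_range]
    rintro ⟨j, e⟩
    exact j.2 e
  rw [hA] at h0 h1
  rw [degreeOf_mul_eq (left_ne_zero_of_mul h0) (right_ne_zero_of_mul h0)] at h1
  refine pderiv_eq_zero_of_notMem_vars fun hv => ?_
  exact (mem_vars_iff_degreeOf_ne_zero.1 hv) (by omega)

lemma pderiv_ne [CharZero C] (hp : Prime F) : ∃ i, pderiv i F ≠ 0 := by
  by_contra hn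
  push Not at hn
  have h3 : F.totalDegree = 0 := by
    rw [totalDegree_eq_zero_iff]
    intro m hm j
    by_contra h4
    have h5 := coeff_pderiv (i := j) F (m - Finsupp.single j 1)
    have h6 : m - Finsupp.single j 1 + Finsupp.single j 1 = m := by
      apply tsub_add_cancel_of_le
      rw [Finsupp.single_le_iff]; omega
    rw [hn, h6, coeff_zero] at h5
    rcases mul_eq_zero.1 h5.symm with h7 | h7
    · exact (mem_support_iff.1 hm) h7
    · exact Nat.cast_add_one_ne_zero _ h7
  rw [totalDegree_eq_zero_iff_eq_C] at h3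
  refine hp.not_unit ?_
  rw [h3]
  exact (Ne.isUnit fun e => hp.ne_zero (by rw [h3, e, map_zero])).map _

lemma GenK.pderiv_ne (h : GenK F q) {i : κ} (hi : pderiv i F ≠ 0) : grad F q i ≠ 0 := fun e =>
  (totalDegree_le_of_dvd_of_isDomain ((h _).1 e) hi).not_gt (H88.totalDegree_pderiv_lt hi)

variable [CharZero Ω]

lemma GenK.grad_ne (h : GenK F q) (hp : Prime F) : grad F q ≠ 0 := by
  have : CharZero C := (algebraMap C Ω).charZero
  obtain ⟨i, hi⟩ := H74.pderiv_ne hp
  exact fun e => h.pderiv_ne hi (congrFun e i)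

/-- All tangent vectors are derivatives. -/
lemma GenK.sur (h : GenK F q) (hp : Prime F) (hw : grad F q ⬝ᵥ w = 0) :
    ∃ θ : Der C Ω, dv q θ = w := by
  have : CharZero C := (algebraMap C Ω).charZero
  obtain ⟨i, hi⟩ := H74.pderiv_ne hp
  obtain ⟨θ, -, hθ⟩ := ext_indep ⊥ (indep_bot (h.indep hi)) 0 fun j => w j
  refine ⟨θ, funext fun j => ?_⟩
  by_cases e : j = i
  · have h1 := (h.tan θ).trans hw.symm
    simp only [dotProduct, Fintype.sum_eq_add_sum_subtype_ne _ i, dv_apply, hθ,
      add_left_inj] at h1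
    rw [e]
    exact mul_left_cancel₀ (h.pderiv_ne hi) h1
  · exact hθ ⟨j, e⟩

/-- A zero that moves in a hyperplane is generic. -/
lemma genK_of_sur (hp : Prime F) (h0 : aeval q F = 0) {m : κ → Ω} (hm : m ≠ 0)
    (h : ∀ w, m ⬝ᵥ w = 0 → ∃ θ : Der C Ω, dv q θ = w) : GenK F q := by
  obtain ⟨i, hi⟩ := Function.ne_iff.1 hm
  have hi' : m i ≠ 0 := hi
  have hg : H88.Gen C q := ⟨i, indep_of_dual fun j => by
    obtain ⟨θ, hθ⟩ := h (Pi.single j.1 1 - (m j / m i) • Pi.single i 1) (by simp [hi'])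
    refine ⟨θ, ?_, fun k hk => ?_⟩
    · rw [show θ (q j) = _ from congrFun hθ j]; simp [j.2]
    · rw [show θ (q k) = _ from congrFun hθ k]
      simp [k.2, show (k : κ) ≠ j from fun e => hk (Subtype.ext e)]⟩
  exact fun G => ⟨H88.dvd_of_gen hg hp.irreducible h0, fun ⟨A, e⟩ => by rw [e, map_mul, h0, zero_mul]⟩

omit [CharZero Ω] [Fintype κ] [DecidableEq κ] in
/-- Existence of generic points over an extension. -/
lemma gen0 {p : MvPolynomial κ Ω} (hp : Prime p) :
    ∃ (Ω' : Type) (_ : Field Ω') (_ : IsAlgClosed Ω') (_ : Algebra Ω Ω') (_ : Algebra C Ω')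
      (_ : IsScalarTower C Ω Ω') (z : κ → Ω'), GenK p z := by
  let I := Ideal.span {p}
  have : I.IsPrime := (Ideal.span_singleton_prime hp.ne_zero).2 hp
  let R := MvPolynomial κ Ω ⧸ I
  let Ω' := AlgebraicClosure (FractionRing R)
  let φ : R →ₐ[Ω] Ω' := IsScalarTower.toAlgHom Ω R Ω'
  have hφ : Function.Injective φ :=
    (algebraMap (FractionRing R) Ω').injective.comp (IsFractionRing.injective R _)
  refine ⟨Ω', inferInstance, inferInstance, inferInstance, inferInstance, inferInstance,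
    fun i => φ (Ideal.Quotient.mkₐ Ω I (X i)), fun G => ?_⟩
  rw [← comp_aeval_apply, ← comp_aeval_apply, map_eq_zero_iff φ hφ, aeval_X_left_apply,
    ← Ideal.mem_span_singleton]
  exact Ideal.Quotient.eq_zero_iff_mem

end GenK

section Hom

/-- A homogeneous prime equation of degree at least two. -/
structure Hyp (F : MvPolynomial κ C) (d : ℕ) : Prop where
  prime : Prime F
  hom : F.IsHomogeneous d
  two : 2 ≤ d

lemma GenK.linz (h : GenK F q) (hF : Hyp F d) (hK : cv Ω K ⬝ᵥ q = 0) : K = 0 :=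
  lf_eq_zero (hom_eq_zero hF.hom hF.prime.ne_zero (lf_hom K) hF.two
    ((h _).1 (by rw [aeval_lf, hK])))

lemma GenK.dd_zero (h : GenK F q) (hF : Hyp F d) (hc : grad F q ⬝ᵥ cv Ω c = 0) : dd c F = 0 :=
  hom_eq_zero hF.hom hF.prime.ne_zero (dd_hom hF.hom c) (by have := hF.two; omega)
    ((h _).1 (by rw [aeval_dd, hc]))

lemma GenK.tq (h : GenK F q) (hF : Hyp F d) : grad F q ⬝ᵥ q = 0 := by
  rw [euler hF.hom, h.zero, mul_zero]

variable [CharZero Ω]

lemma Hyp.cast_ne (hF : Hyp F d) : ((d - 1 : ℕ) : Ω) ≠ 0 :=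
  Nat.cast_ne_zero.2 (by have := hF.two; omega)

/-- A line through a vertex. -/
lemma cone (hF : F.IsHomogeneous d) {θ : Der C Ω} (hy : dv y θ = 0) (hq : dv q θ = y)
    (h0 : aeval q F = 0) : aeval y F = 0 := by
  let P := H17.Cm.line F q y
  have h1 : ∀ (G : MvPolynomial κ C) (k : ℕ), θ ((H17.Cm.line G q y).coeff k) =
      (H17.Cm.line G q y).derivative.coeff k := fun G => by
    have a1 : ∀ i, θ (y i) = 0 := congrFun hy
    have a2 : ∀ i, θ (q i) = y i := congrFun hq
    unfold H17.Cm.line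
    induction G using MvPolynomial.induction_on with
    | C a => intro k; simp [Polynomial.coeff_C, apply_ite θ]
    | add p q hp hq => intro k; simp only [map_add, Polynomial.coeff_add, hp, hq]
    | mul_X p i hp =>
      intro k
      simp only [map_mul, aeval_X]
      generalize (aeval (fun i => Polynomial.C (q i) + Polynomial.C (y i) * Polynomial.X) p :
        Polynomial Ω) = A at hp ⊢
      rw [Polynomial.derivative_mul, mul_add, ← mul_assoc]
      rcases k with _ | k
      · simp [hp, a2, mul_add, ← mul_assoc]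
        ring
      · simp [hp, a1, a2, mul_add, ← mul_assoc, Polynomial.coeff_mul_X,
          Polynomial.coeff_derivative]
        ring
  have h2 : ∀ k, P.coeff k = 0 := fun k => by
    induction k with
    | zero => rw [Polynomial.coeff_zero_eq_eval_zero, H17.Cm.eval_line]; simpa using h0
    | succ k ih =>
      have := h1 F k
      rw [ih, map_zero, Polynomial.coeff_derivative, eq_comm, mul_eq_zero] at this
      exact this.resolve_right (Nat.cast_add_one_ne_zero k)
  have h3 := H17.Cm.coeff_line hF.totalDegree_le q y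
  rwa [h2, homogeneousComponent_eq_self hF, eq_comm] at h3

variable [IsAlgClosed C]

/-- The tangent hyperplanes do not lie in a pencil. -/
lemma GenK.l3 (h : GenK F q) (hF : Hyp F d) (K1 K2 : κ → C) (a b : Ω) :
    grad F q ≠ a • cv Ω K1 + b • cv Ω K2 := fun e => by
  have T0 := h.grad_ne hF.prime
  have one : ∀ (K : κ → C) (s : Ω), grad F q ≠ s • cv Ω K := fun K s e => by
    have h1 := h.tq hF
    rw [e, smul_dotProduct, smul_eq_mul, mul_eq_zero] at h1
    refine T0 (h1.elim (fun h2 => by rw [e, h2, zero_smul]) fun h2 => ?_)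
    rw [e, h.linz hF h2, cv_eq_zero.2 rfl, smul_zero]
  have k2 : cv Ω K2 ⬝ᵥ q ≠ 0 := fun h2 =>
    one K1 a (by rw [e, h.linz hF h2, cv_eq_zero.2 rfl, smul_zero, add_zero])
  have a0 : a ≠ 0 := fun h2 => one K2 b (by rw [e, h2, zero_smul, zero_add])
  have h1 := h.tq hF
  obtain ⟨r, hr⟩ := const_of_kil (C := C) (Ω := Ω) (x := cv Ω K1 ⬝ᵥ q / cv Ω K2 ⬝ᵥ q) fun θ => by
    have h2 := h.tan θ
    rw [e] at h1 h2
    simp only [add_dotProduct, smul_dotProduct, smul_eq_mul] at h1 h2
    rw [Derivation.leibniz_div, dv_dot, dv_dot]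
    simp only [dv_cv, zero_dotProduct, zero_add, smul_eq_mul, mul_eq_zero]
    refine Or.inr (mul_left_cancel₀ a0 ?_)
    linear_combination (cv Ω K2 ⬝ᵥ q) * h2 - (cv Ω K2 ⬝ᵥ dv q θ) * h1
  have h3 : K1 - r • K2 = 0 := h.linz hF (by
    rw [cv_sub, cv_smul, hr, sub_dotProduct, smul_dotProduct, smul_eq_mul, div_mul_cancel₀ _ k2,
      sub_self])
  exact one K2 (a * algebraMap C Ω r + b) (by
    rw [e, sub_eq_zero.1 h3, cv_smul, smul_smul, add_smul])

end Hom

end Pool.Agent.MP_249f74_an.H74
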