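import Pool.Agent.MP_249f74_an.H74.Hom
import Pool.Agent.MP_249f74_an.H18.Spec

/-!
The mirror equation from a complex of rank one.
-/

open Set
open Matrix hiding J vec
open MvPolynomial hiding funext

namespace Pool.Agent.MP_249f74_an.H74

open H17 (Der)
open H17.Cm (grad hat vec sp tv J rf smul_rf dot_rf dot_rf_comm rf_rf)
open H90 (dv dv_apply dv_dot dv_smul dv_sub dv_add)
open H32 (Mir pos dir pt edge St Tl)
open H18 (RK Tot BERT)

variable {C Ω κ ι : Type} [Field C] [Field Ω] [Algebra C Ω] [Fintype κ] [DecidableEq κ] [Fintype ι]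
  [DecidableEq ι] [CharZero Ω]

/-- A point whose derivatives fill exactly a hyperplane is generic on a hypersurface. -/
lemma cur_of {l m : κ → Ω} (m0 : m ≠ 0) (h1 : ∀ θ : Der C Ω, m ⬝ᵥ dv l θ = 0)
    (h2 : ∀ w, m ⬝ᵥ w = 0 → ∃ θ : Der C Ω, dv l θ = w) : H42.Cur C l := by
  obtain ⟨P, p1, p2⟩ : ∃ P : MvPolynomial κ C, aeval l P = 0 ∧ P ≠ 0 := by
    by_contra hn
    push Not at hn
    obtain ⟨w, hw⟩ := exists_dot m0
    obtain ⟨θ, -, hθ⟩ := H96.ext_indep ⊥ (H96.indep_bot (algebraicIndependent_iff.2 hn)) 0 w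
    have := h1 θ
    rw [show dv l θ = w from funext hθ, hw] at this
    exact one_ne_zero this
  induction P using UniqueFactorizationMonoid.induction_on_prime with
  | h₁ => exact (p2 rfl).elim
  | h₂ x hx => exact ((hx.map (aeval l)).ne_zero p1).elim
  | h₃ a p ha hp ih =>
    rw [map_mul, mul_eq_zero] at p1
    exact p1.elim (fun e => ⟨p, hp, genK_of_sur hp e m0 h2⟩) fun e => ih e ha

lemma grad_ne_of_cur {l : κ → Ω} {h : MvPolynomial κ C} (hl : H42.Cur C l) (hs : Squarefree h)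
    (h0 : aeval l h = 0) : grad h l ≠ 0 := fun e => by
  obtain ⟨π, hp, hl⟩ := hl
  obtain ⟨g, rfl⟩ := (hl h).1 h0
  have hl' : GenK π l := hl
  obtain ⟨i, hi⟩ := Function.ne_iff.1 (hl'.grad_ne hp)
  have := congrFun e i
  simp only [grad, Derivation.leibniz, smul_eq_mul, map_add, map_mul, hl'.zero, zero_mul, zero_add,
    Pi.zero_apply, mul_eq_zero] at this
  exact hp.not_unit (hs π (mul_dvd_mul_left π ((hl' g).1 (this.resolve_right hi))))

lemma Cfg.ii {F G : MvPolynomial κ C} {q y : κ → Ω} {d d' : ℕ} (h : Cfg F G q y) (hF : Hyp F d)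
    (hG : Hyp G d') (hne : ¬G ∣ F) : (hs G y *ᵥ q) ⬝ᵥ q ≠ 0 := fun e => by
  obtain ⟨a, b, e'⟩ := par2 (T := grad F q) (H := grad G y) (K := hs G y *ᵥ q) fun w w1 w2 => by
    obtain ⟨θ, t1, rfl⟩ := h.free w w1 w2
    have := dv_dot (hs G y *ᵥ q) q θ
    rw [e, map_zero, dv_hs t1, dotProduct_comm _ q, symm_dot (hs_symm G y), dotProduct_comm] at this
    linear_combination (-1 / 2 : Ω) * this
  have a1 : (hs G y *ᵥ q) ⬝ᵥ y = 0 := by
    rw [dotProduct_comm, symm_dot (hs_symm G y), hs_self hG.hom, dotProduct_smul, dotProduct_comm,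
      h.hq, smul_zero]
  rw [e', add_dotProduct, smul_dotProduct, smul_dotProduct, h.gy.tq hG, smul_zero, add_zero,
    smul_eq_mul, mul_eq_zero, or_iff_left (h.ty hF hG hne)] at a1
  obtain ⟨w, w1, w2⟩ := exists_sep (h.ne hF hG hne)
  obtain ⟨θ, rfl⟩ := h.gq.sur hF.prime w1
  have := h.dh θ
  rw [w2, dv_grad, dotProduct_comm, symm_dot (hs_symm G y), e', a1, zero_smul, zero_add,
    dotProduct_smul, dotProduct_comm, h.gy.tan, smul_zero, zero_add] at this
  exact one_ne_zero this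

omit [DecidableEq ι] [CharZero Ω] in
lemma dot_af {q K : Option ι → Ω} (h0 : q none ≠ 0) (h : K ⬝ᵥ q = 0) (z : Option ι → Ω) :
    K ⬝ᵥ z = sp K ⬝ᵥ (sp z - z none • af q) := by
  simp only [dotProduct, Fintype.sum_option] at h
  simp only [af, dotProduct_sub, dotProduct_smul, smul_eq_mul]
  simp only [dotProduct, Fintype.sum_option, sp]
  field_simp
  linear_combination z none * h

omit [Fintype ι] [DecidableEq ι] [CharZero Ω] in
lemma dv_af {q : Option ι → Ω} (h0 : q none ≠ 0) (θ : Der C Ω) :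
    q none • dv (af q) θ = sp (dv q θ) - dv q θ none • af q := by
  ext i
  simp [af, sp, Derivation.leibniz_inv]
  field_simp
  ring

omit [DecidableEq ι] in
lemma rf_der {N u : ι → Ω} (h : N ⬝ᵥ N ≠ 0) (n : ι → Ω) (θ : Der C Ω) :
    rf N n ⬝ᵥ dv (rf N u) θ = n ⬝ᵥ dv u θ +
      2 * (n ⬝ᵥ N * (dv N θ ⬝ᵥ u) - N ⬝ᵥ u * (n ⬝ᵥ dv N θ)) / (N ⬝ᵥ N) := by
  rw [rf, rf, dv_sub, dv_smul, Derivation.leibniz_div, Derivation.leibniz, dv_dot, dv_dot,
    H90.der_two]
  simp only [sub_dotProduct, dotProduct_sub, dotProduct_add, smul_dotProduct, dotProduct_smul,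
    smul_eq_mul, dotProduct_comm (dv N θ) N, dotProduct_comm N n]
  field_simp
  ring

variable {k : Type} [Field k] [Algebra k ℝ] [Algebra k C]

/-- The mirror equation. -/
theorem bi [IsAlgClosed Ω] {m m' : Mir k C ι} {h : MvPolynomial (ι ⊕ ι) C} (sq : Squarefree h)
    (rk : RK h) (tot : Tot m m' h) {F G : MvPolynomial (Option ι) C} {d d' : ℕ} (hF : Hyp F d)
    (hG : Hyp G d') (eF : deh F = m.f) (eG : deh G = m'.f) (hne : ¬G ∣ F) {q y : Option ι → Ω}
    (c : Cfg F G q y) (fr : Fr C q y) : BI (J ι C) F G q y := by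
  obtain ⟨t, θ0, f1, f2, f3⟩ := fr
  have q0 := c.gq.q0 hF
  have y0 := c.gy.q0 hG
  have ox : m.On (af q) := by have := c.gq.aff hF; rw [eF] at this; exact this
  have op : m'.On (af y) := by have := c.gy.aff hG; rw [eG] at this; exact this
  have eT : sp (grad F q) = q none ^ (d - 1) • grad m.f (af q) := by
    rw [c.gq.grad_eq hF, eF]; rfl
  have eH : sp (grad G y) = y none ^ (d' - 1) • grad m'.f (af y) := by
    rw [c.gy.grad_eq hG, eG]; rfl
  have dT := dot_af q0 (c.gq.tq hF)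
  have dH := dot_af q0 c.hq
  set x := af q with hx
  set u := sp y - y none • x with hu
  set N := sp (grad F q) with hN
  set n := sp (grad G y) with hn
  have Nu : N ⬝ᵥ u ≠ 0 := dT y ▸ c.ty hF hG hne
  have nu : n ⬝ᵥ u = 0 := dH y ▸ c.gy.tq hG
  have NN : N ⬝ᵥ N ≠ 0 := by simpa [eT, q0] using ox.nn
  have n0 : n ≠ 0 := fun e => c.gy.grad_ne hG.prime (eq_zero_of_dot fun z => by
    rw [dH, e, zero_dotProduct])
  have du : ∀ θ : Der C Ω, dv u θ = sp (dv y θ) - dv y θ none • x - y none • dv x θ := fun θ => by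
    rw [hu, dv_sub, dv_smul, sub_sub]; rfl
  have ndu : ∀ θ : Der C Ω, n ⬝ᵥ dv u θ = -(y none * n ⬝ᵥ dv x θ) := fun θ => by
    rw [du, dotProduct_sub, ← dH, c.gy.tan, zero_sub, dotProduct_smul, smul_eq_mul]
  have gen : ∀ (ξ η : ι → Ω) (τ : Ω), N ⬝ᵥ ξ = 0 → n ⬝ᵥ (η + y none • ξ) = 0 → ∃ D : Der C Ω,
      dv q D = q none • vec ξ ∧ dv x D = ξ ∧ dv u D = η ∧ D t = τ := fun ξ η τ h1 h2 => by
    have ii := c.ii hF hG hne
    obtain ⟨D, d1⟩ := c.gy.sur hG.prime (w := vec (η + y none • ξ) +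
      (-((hs G y *ᵥ vec (η + y none • ξ)) ⬝ᵥ q + grad G y ⬝ᵥ (q none • vec ξ)) /
        (hs G y *ᵥ q) ⬝ᵥ q) • q) (by
      rw [dotProduct_add, dotProduct_smul, c.hq, smul_zero, add_zero, dotProduct_comm,
        H17.Cm.vec_dot, dotProduct_comm, h2])
    obtain ⟨ψ, p1, p2⟩ := c.free (q none • vec ξ - dv q D) (by
      rw [dotProduct_sub, c.gq.tan, dotProduct_smul, dotProduct_comm, H17.Cm.vec_dot,
        dotProduct_comm, h1, smul_zero, sub_zero]) (by
      have := c.dh D
      rw [dv_grad, d1, mulVec_add, mulVec_smul, add_dotProduct, smul_dotProduct, smul_eq_mul,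
        div_mul_cancel₀ _ ii] at this
      rw [dotProduct_sub]
      linear_combination -this)
    have a1 : dv q (D + ψ + (τ - (D + ψ) t) • θ0) = q none • vec ξ := by
      rw [map_add, map_add, map_smul, f1, p2]; simp
    have a2 : dv y (D + ψ + (τ - (D + ψ) t) • θ0) = dv y D := by
      rw [map_add, map_add, map_smul, f2, p1]; simp
    have a3 : dv x (D + ψ + (τ - (D + ψ) t) • θ0) = ξ := smul_right_injective _ q0 (by
      simp only
      rw [hx, dv_af q0, a1]; simp [vec])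
    refine ⟨_, a1, a3, ?_, by simp [f3]⟩
    rw [du, a2, a3, d1]
    ext i
    simp [vec, hx, af, sp]
    field_simp
    ring
  have e1 : pt (edge x u t) (t + (y none)⁻¹) = af y := by
    ext i
    simp [pt, hu, af]
    field_simp
    ring
  have dl : ∀ (v a b : ι → Ω) (θ : Der C Ω), Sum.elim a b ⬝ᵥ dv (edge x v t) θ =
      a ⬝ᵥ dv x θ - θ t * a ⬝ᵥ v + (b - t • a) ⬝ᵥ dv v θ := fun v a b θ => by
    rw [show dv (edge x v t) θ = Sum.elim (dv (x - t • v) θ) (dv v θ) from
      funext fun i => by cases i <;> rfl, sumElim_dotProduct_sumElim, dv_sub, dv_smul]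
    simp only [dotProduct_sub, dotProduct_add, dotProduct_smul, sub_dotProduct, smul_dotProduct,
      smul_eq_mul]
    ring
  have cur : H42.Cur C (edge x u t) := cur_of (m := Sum.elim n ((t + (y none)⁻¹) • n))
    (fun e => n0 (funext fun i => congrFun e (.inl i))) (fun θ => by
      rw [dl, nu, sub_dotProduct, smul_dotProduct, smul_dotProduct, ndu]
      simp only [smul_eq_mul]
      field_simp
      ring) fun w hw => by
      rw [← Sum.elim_comp_inl_inr w, sumElim_dotProduct_sumElim] at hw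
      obtain ⟨D, -, d1, d2, d3⟩ := gen (w ∘ Sum.inl + t • w ∘ Sum.inr -
        (N ⬝ᵥ (w ∘ Sum.inl + t • w ∘ Sum.inr) / N ⬝ᵥ u) • u) (w ∘ Sum.inr)
        (-(N ⬝ᵥ (w ∘ Sum.inl + t • w ∘ Sum.inr) / N ⬝ᵥ u)) (by
          rw [dotProduct_sub, dotProduct_smul, smul_eq_mul, div_mul_cancel₀ _ Nu, sub_self]) (by
          simp only [dotProduct_add, dotProduct_sub, dotProduct_smul, smul_dotProduct, nu,
            smul_eq_mul] at hw ⊢
          field_simp at hw
          linear_combination hw)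
      refine ⟨D, funext fun i => ?_⟩
      cases i with
      | inl i =>
        refine (congrFun (dv_sub x (t • u) D) i).trans ?_
        rw [dv_smul, d1, d2, d3]; simp; ring
      | inr i => exact congrFun d2 i
  have st := H32.st_edge (m := m) (l := edge x u t) (t := t) (by simpa using ox.zero)
    (by simpa using ox.nn) (by simpa [eT, q0] using Nu)
  have h0 := tot Ω _ _ t ⟨cur, _, e1 ▸ op, by simpa [e1, eH, y0] using nu⟩ st
  have g0 := grad_ne_of_cur (st.cur cur) sq h0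
  rw [H32.pt_edge, H32.dir_edge, ← smul_rf (pow_ne_zero (d - 1) q0), ← eT] at h0 g0
  replace h0 : aeval (edge x (rf N u) t) h = 0 := h0
  set α : ι → Ω := grad h (edge x (rf N u) t) ∘ Sum.inl with hα
  set β : ι → Ω := grad h (edge x (rf N u) t) ∘ Sum.inr with hβ
  have mi : ∀ i j, α i * β j = α j * β i := fun i j => by
    obtain ⟨A, e⟩ := rk i j
    have := congrArg (aeval (edge x (rf N u) t)) e
    rwa [map_mul _ h, h0, zero_mul, map_sub, map_mul, map_mul,
      sub_eq_zero] at this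
  have E : ∀ θ : Der C Ω, α ⬝ᵥ dv x θ - θ t * α ⬝ᵥ rf N u + (β - t • α) ⬝ᵥ dv (rf N u) θ = 0 :=
    fun θ => by rw [← dl, Sum.elim_comp_inl_inr, ← der_ev, h0, map_zero]
  have E0 : ∀ (η : ι → Ω) (τ : Ω), n ⬝ᵥ η = 0 →
      -(τ * α ⬝ᵥ rf N u) + rf N (β - t • α) ⬝ᵥ η = 0 := fun η τ hη => by
    obtain ⟨D, d0, d1, d2, d3⟩ := gen 0 η τ (by simp) (by simpa using hη)
    have a1 : dv N D = 0 := by
      have : dv (grad F q) D = 0 := by
        rw [dv_grad, d0, show vec (0 : ι → Ω) = 0 from funext fun o => by cases o <;> rfl]; simp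
      exact funext fun i => congrFun this (some i)
    have := E D
    rwa [← rf_rf NN (β - t • α), rf_der NN, d1, d2, d3, a1, dotProduct_zero, zero_dotProduct,
      dotProduct_zero, mul_zero, mul_zero, sub_zero, mul_zero, zero_div, add_zero, zero_sub] at this
  have au : α ⬝ᵥ rf N u = 0 := by simpa using E0 0 1 (by simp)
  obtain ⟨μ, hμ⟩ := par1 (T := n) (K := rf N (β - t • α)) fun η hη => by simpa using E0 η 0 hη
  have eγ : β - t • α = μ • rf N n := by rw [← H17.Cm.rf_smul, ← hμ, rf_rf NN]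
  have μ0 : μ ≠ 0 := fun e => by
    rw [e, zero_smul] at eγ
    obtain ⟨s, hs⟩ := par1 (T := N) (K := α) fun ξ hξ => by
      obtain ⟨D, -, d1, -, -⟩ := gen ξ (-(y none • ξ)) 0 hξ (by simp)
      simpa [d1, au, eγ] using E D
    rw [hs, smul_dotProduct, dot_rf NN, smul_eq_mul, mul_eq_zero, neg_eq_zero,
      or_iff_left Nu] at au
    rw [au, zero_smul] at hs
    rw [hs, smul_zero, sub_zero] at eγ
    exact g0 (by rw [← Sum.elim_comp_inl_inr (grad h _), ← hα, ← hβ, hs, eγ, Sum.elim_zero_zero])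
  obtain ⟨j, hj⟩ : ∃ j, (β - t • α) j ≠ 0 := Function.ne_iff.1 fun e : β - t • α = 0 => n0 (by
    rw [eγ, smul_eq_zero, or_iff_right μ0] at e
    rw [← rf_rf NN n, e]; simp [rf])
  have eα : α = (α j / (β - t • α) j) • (β - t • α) := funext fun i => by
    rw [Pi.smul_apply, smul_eq_mul, div_mul_eq_mul_div, eq_div_iff hj]
    simp only [Pi.smul_apply, Pi.sub_apply, smul_eq_mul]
    linear_combination mi i j
  generalize α j / (β - t • α) j = τ at eα
  refine ⟨N ⬝ᵥ N * (y none - τ) / (2 * q none), fun θ => ?_⟩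
  have a1 := E θ
  have a2 : N ⬝ᵥ dv x θ = 0 := by
    have := c.gq.tan θ
    rwa [dT, ← dv_af q0, dotProduct_smul, smul_eq_zero, or_iff_right q0] at this
  have a3 : dv (grad F q) θ ⬝ᵥ q = 0 := by
    have := dv_dot (grad F q) q θ
    rwa [c.gq.tq hF, map_zero, c.gq.tan, add_zero, eq_comm] at this
  rw [au, eγ] at a1
  nth_rewrite 1 [eα] at a1
  rw [eγ, smul_dotProduct, smul_dotProduct, smul_dotProduct, rf_der NN, ndu, dot_rf_comm,
    H17.Cm.rf_of_dot a2] at a1
  rw [ee_J, ee_J, dot_af q0 a3, dT, dH, ← dv_af q0, dotProduct_smul, ← hx, ← hu, ← hn, ← hN,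
    show sp (dv (grad F q) θ) = dv N θ from rfl]
  simp only [smul_eq_mul] at a1 ⊢
  field_simp at a1 ⊢
  refine mul_left_cancel₀ μ0 ?_
  linear_combination a1

/-- Rigidity of pairs of mirrors. -/
theorem bert' [IsAlgClosed C] [CharZero C] (db : DB4 C) : BERT k C ι := fun m m' h ne sq rk tot => by
  obtain ⟨F, hF, eF⟩ := homog m.prime m.deg
  obtain ⟨G, hG, eG⟩ := homog m'.prime m'.deg
  have hne : ¬G ∣ F := fun e => ne (Mir.ext_of_associated
    ((m'.prime.dvd_prime_iff_associated m.prime).1 (eF ▸ eG ▸ map_dvd deh e)).symm)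
  rcases core db H17.Cm.J_symm hF hG hne (fun Ω _ _ y hy => by
      have op : m'.On (af y) := by have := hy.aff hG; rw [eG] at this; exact this
      rw [ee_J, hy.grad_eq hG, eG]
      simpa [hy.q0 hG, H17.Cm.sp_tv] using op.nn)
    fun Ω _ _ _ _ q y c fr => bi sq rk tot hF hG eF eG hne c fr with h | h | h | h
  · exact .inl (.inr (.inr (eF ▸ eG ▸ h.warp hF)))
  · exact .inl (.inr (.inl (eF ▸ eG ▸ h.warp hG)))
  · exact .inl (.inl (eF ▸ eG ▸ h.conf (eF ▸ m.deg) (eG ▸ m'.deg)))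
  · exact .inr (by have := h.v3 hF hG; rwa [eF, eG] at this)

end Pool.Agent.MP_249f74_an.H74
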