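import Pool.Agent.MP_249f74_an.H74.Gen

/-!
Contact configurations of two hypersurfaces, the mirror equation and the moving case.
-/

open Set Matrix
open MvPolynomial hiding funext

namespace Pool.Agent.MP_249f74_an.H74

open H17 (Der)
open H17.Cm (grad der_aeval)
open H90 (dv dv_apply dv_dot dv_smul dv_sub)

variable {C Ω κ : Type} [Field C] [Field Ω] [Algebra C Ω] [Fintype κ] [DecidableEq κ]

/-- The absolute form on covectors. -/
def ee (E : Matrix κ κ C) (K K' : κ → Ω) : Ω := K ⬝ᵥ E.map (algebraMap C Ω) *ᵥ K'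

/-- The point `q` is generic in a component of the section of `F = 0` by the tangent hyperplane of
`G = 0` at the generic point `y`. -/
structure Cfg (F G : MvPolynomial κ C) (q y : κ → Ω) : Prop where
  gq : GenK F q
  gy : GenK G y
  hq : grad G y ⬝ᵥ q = 0
  free : ∀ w, grad F q ⬝ᵥ w = 0 → grad G y ⬝ᵥ w = 0 → ∃ θ : Der C Ω, dv y θ = 0 ∧ dv q θ = w

variable (C) in
/-- The field contains an element that is free over the two points. -/
def Fr (q y : κ → Ω) : Prop := ∃ (t : Ω) (θ : Der C Ω), dv q θ = 0 ∧ dv y θ = 0 ∧ θ t = 1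

/-- The mirror equation. -/
def BI (E : Matrix κ κ C) (F G : MvPolynomial κ C) (q y : κ → Ω) : Prop :=
  ∃ k : Ω, ∀ θ : Der C Ω, ee E (grad G y) (grad F q) * (dv (grad F q) θ ⬝ᵥ y) -
    grad F q ⬝ᵥ y * ee E (grad G y) (dv (grad F q) θ) = k * (grad G y ⬝ᵥ dv q θ)

/-- The covector vanishes on the vertex space. -/
def Lc (F : MvPolynomial κ C) (K : κ → Ω) : Prop := ∀ c : κ → C, dd c F = 0 → K ⬝ᵥ cv Ω c = 0

/-- The normals of the level sets of `F` meet the vertex space of `G`. -/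
def Wh (E : Matrix κ κ C) (F G : MvPolynomial κ C) : Prop :=
  ∀ K1 K2 : κ → C, Lc G K1 → Lc G K2 → lf K1 * dd (E *ᵥ K2) F = lf K2 * dd (E *ᵥ K1) F

/-- A quadratic form. -/
noncomputable def qf (A : Matrix κ κ C) : MvPolynomial κ C := ∑ i, X i * lf (A i)

/-- Confocal quadrics. -/
def Qh (E : Matrix κ κ C) (F G : MvPolynomial κ C) : Prop :=
  ∃ A B : Matrix κ κ C, A.IsSymm ∧ B.IsSymm ∧ A ≠ 0 ∧ B ≠ 0 ∧ B - A = A * E * B ∧ F ∣ qf A ∧
    G ∣ qf B

/-- A common vertex space of codimension three. -/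
def V3 (F G : MvPolynomial κ C) : Prop :=
  ∃ (B : Matrix (Fin 3) κ C) (S : Matrix κ (Fin 3) C), B * S = 1 ∧
    (∀ c, B *ᵥ c = 0 ↔ dd c G = 0) ∧ ∀ c, B *ᵥ c = 0 → dd c F = 0

variable {E : Matrix κ κ C} {F G : MvPolynomial κ C} {q y w : κ → Ω} {K c : κ → C} {d d' : ℕ}

section Basic

lemma ee_symm (hE : E.IsSymm) (K K' : κ → Ω) : ee E K K' = ee E K' K := symm_dot (hE.map _) K K'

lemma ee_add (K a b : κ → Ω) : ee E K (a + b) = ee E K a + ee E K b := by
  simp [ee, mulVec_add]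

lemma ee_sub (K a b : κ → Ω) : ee E K (a - b) = ee E K a - ee E K b := by
  simp [ee, mulVec_sub]

lemma ee_smul (K a : κ → Ω) (s : Ω) : ee E K (s • a) = s * ee E K a := by
  simp [ee, mulVec_smul]

@[simp] lemma ee_zero (K : κ → Ω) : ee E K 0 = 0 := by simp [ee]

lemma der_ee (θ : Der C Ω) (a b : κ → Ω) :
    θ (ee E a b) = ee E (dv a θ) b + ee E a (dv b θ) := by
  rw [ee, dv_dot, dv_mulVec]; rfl

lemma aeval_qf (A : Matrix κ κ C) (q : κ → Ω) : aeval q (qf A) = ee A q q := by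
  simp [qf, aeval_lf, ee, dotProduct, mulVec]

lemma qf_hom (A : Matrix κ κ C) : (qf A).IsHomogeneous 2 :=
  IsHomogeneous.sum _ _ _ fun i _ => (isHomogeneous_X C i).mul (lf_hom _)

@[simp] lemma cv_self (c : κ → C) : cv C c = c := rfl

lemma Lc.cv (h : Lc F K) : Lc F (cv Ω K) := fun c hc => by
  rw [cv_dot, show K ⬝ᵥ c = 0 from h c hc, map_zero]

lemma lc_grad (F : MvPolynomial κ C) (q : κ → Ω) : Lc F (grad F q) := fun c hc => by
  rw [← aeval_dd, hc, map_zero]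

lemma Lc.dv {K : κ → Ω} (h : Lc F K) (θ : Der C Ω) : Lc F (dv K θ) := fun c hc => by
  have := dv_dot K (H74.cv Ω c) θ
  rwa [h c hc, map_zero, dv_cv, dotProduct_zero, add_zero, eq_comm] at this

lemma split_L (F : MvPolynomial κ C) : ∃ (m : ℕ) (B : Matrix (Fin m) κ C) (S : Matrix κ (Fin m) C),
    B * S = 1 ∧ ∀ c, B *ᵥ c = 0 ↔ dd c F = 0 :=
  split
    { carrier := {c | dd c F = 0}
      add_mem' := fun {a b} (ha : dd a F = 0) (hb : dd b F = 0) => show dd _ F = 0 by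
        rw [dd_add, ha, hb, add_zero]
      zero_mem' := show dd 0 F = 0 by simp [dd]
      smul_mem' := fun s a (ha : dd a F = 0) => show dd _ F = 0 by rw [dd_smul, ha, mul_zero] }

variable {α : Type} [Fintype α] [DecidableEq α] {B : Matrix α κ C} {S : Matrix κ α C}

lemma lc_row (h : ∀ c, B *ᵥ c = 0 ↔ dd c F = 0) (a : α) : Lc F (B a) := fun c hc =>
  congrFun ((h c).2 hc) a

lemma Lc.rep {K : κ → Ω} (hK : Lc F K) (h1 : B * S = 1) (h : ∀ c, B *ᵥ c = 0 ↔ dd c F = 0) :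
    (K ᵥ* S.map (algebraMap C Ω)) ᵥ* B.map (algebraMap C Ω) = K := by
  ext j
  have := hK (Pi.single j 1 - S *ᵥ (B *ᵥ Pi.single j 1)) ((h _).1 (by
    rw [mulVec_sub, mulVec_mulVec, h1, one_mulVec, sub_self]))
  rw [cv_sub, ← cv_mulVec, ← cv_mulVec, cv_single, dotProduct_sub, dotProduct_mulVec,
    dotProduct_mulVec, dotProduct_single_one, dotProduct_single_one, sub_eq_zero] at this
  exact this.symm

end Basic

variable [CharZero Ω]

section Cfg

lemma Cfg.ty (h : Cfg F G q y) (hF : Hyp F d) (hG : Hyp G d') (hne : ¬G ∣ F) :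
    grad F q ⬝ᵥ y ≠ 0 := fun e => by
  obtain ⟨θ, h1, h2⟩ := h.free y e (h.gy.tq hG)
  exact hne ((h.gy F).1 (cone hF.hom h1 h2 h.gq.zero))

lemma Cfg.ne (h : Cfg F G q y) (hF : Hyp F d) (hG : Hyp G d') (hne : ¬G ∣ F) (s : Ω) :
    grad G y ≠ s • grad F q := fun e => by
  have h1 := h.gy.tq hG
  rw [e, smul_dotProduct, smul_eq_mul, mul_eq_zero, or_iff_left (h.ty hF hG hne)] at h1
  exact h.gy.grad_ne hG.prime (by rw [e, h1, zero_smul])

/-- A motion of `y` that keeps `q` in the hyperplane can be realised with `q` fixed. -/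
lemma Cfg.fix (h : Cfg F G q y) (θ : Der C Ω) (h0 : grad G y ⬝ᵥ dv q θ = 0) :
    ∃ φ : Der C Ω, dv q φ = 0 ∧ dv y φ = dv y θ := by
  obtain ⟨ψ, h1, h2⟩ := h.free _ (h.gq.tan θ) h0
  exact ⟨θ - ψ, by rw [map_sub, h2, sub_self], by rw [map_sub, h1, sub_zero]⟩

end Cfg

variable [IsAlgClosed C]

/-- The normal form. -/
lemma nform (hF : Hyp F d) (hG : Hyp G d') (hy : GenK G y)
    (h : ∀ K1 K2 : κ → C, Lc G K1 → Lc G K2 →
      F ∣ lf K1 * dd (E *ᵥ K2) F - lf K2 * dd (E *ᵥ K1) F) : Wh E F G := by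
  intro K1 K2 h1 h2
  obtain ⟨m, B, S, b1, b2⟩ := split_L G
  have hh : ∀ a b : κ → C, (lf a * dd b F).IsHomogeneous d := fun a b => by
    have := (lf_hom a).mul (dd_hom hF.hom b)
    rwa [Nat.add_sub_cancel' (by have := hF.two; omega)] at this
  have hc : ∀ K1 K2 : κ → C, Lc G K1 → Lc G K2 → ∃ s,
      lf K1 * dd (E *ᵥ K2) F - lf K2 * dd (E *ᵥ K1) F = MvPolynomial.C s * F := fun K1 K2 h1 h2 =>
    hom_eq_smul hF.hom hF.prime.ne_zero ((hh _ _).sub (hh _ _)) (h K1 K2 h1 h2)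
  obtain ⟨s, hs⟩ := hc K1 K2 h1 h2
  by_cases s0 : s = 0
  · rw [← sub_eq_zero, hs, s0, map_zero, zero_mul]
  have h3 : ∀ a, ∃ u v : C, B a = u • K1 + v • K2 := fun a => by
    obtain ⟨u, hu⟩ := hc K2 (B a) h2 (lc_row b2 a)
    obtain ⟨v, hv⟩ := hc (B a) K1 (lc_row b2 a) h1
    have h4 : lf (s • B a + u • K1 + v • K2) * F = 0 := by
      simp only [lf_add, lf_smul]
      linear_combination -lf (B a) * hs - lf K1 * hu - lf K2 * hv
    have h5 := lf_eq_zero ((mul_eq_zero.1 h4).resolve_right hF.prime.ne_zero)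
    refine ⟨-u / s, -v / s, funext fun i => ?_⟩
    have := congrFun h5 i
    simp only [Pi.add_apply, Pi.smul_apply, smul_eq_mul, Pi.zero_apply] at this ⊢
    field_simp
    linear_combination this
  choose u v h3 using h3
  refine (hy.l3 hG K1 K2 ((grad G y ᵥ* S.map (algebraMap C Ω)) ⬝ᵥ cv Ω u)
    ((grad G y ᵥ* S.map (algebraMap C Ω)) ⬝ᵥ cv Ω v) ?_).elim
  nth_rewrite 1 [← (lc_grad G y).rep b1 b2]
  generalize grad G y ᵥ* S.map (algebraMap C Ω) = t
  ext j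
  have : ∀ a, B a j = u a * K1 j + v a * K2 j := fun a => congrFun (h3 a) j
  simp [vecMul, dotProduct, this, mul_add, Finset.sum_add_distrib, Finset.sum_mul, mul_assoc]

/-- The moving case. -/
theorem mov (hE : E.IsSymm) (hF : Hyp F d) (hG : Hyp G d') (hne : ¬G ∣ F) (h : Cfg F G q y)
    (hb : BI E F G q y) {θ0 : Der C Ω} (h1 : dv (grad F q) θ0 = 0)
    (h2 : grad G y ⬝ᵥ dv q θ0 ≠ 0) : Wh E G F := by
  obtain ⟨k, hk⟩ := hb
  have k0 : k = 0 := by
    have := hk θ0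
    rw [h1, zero_dotProduct, ee_zero, mul_zero, mul_zero, sub_zero, eq_comm, mul_eq_zero] at this
    exact this.resolve_right h2
  have ty := h.ty hF hG hne
  set T := grad F q with hT
  set H := grad G y with hH
  have key : ∀ K : κ → C, Lc F K → cv Ω K ⬝ᵥ
      (E.map (algebraMap C Ω) *ᵥ H - (ee E H T / T ⬝ᵥ y) • y) = 0 := fun K hK => by
    refine ld1 (C := C) (a := T) (fun D => ?_) ?_ fun c hc => hK.cv c (h.gq.dd_zero hF hc)
    · obtain ⟨ψ, p1, p2⟩ := h.free (dv q D - (H ⬝ᵥ dv q D / H ⬝ᵥ dv q θ0) • dv q θ0)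
        (by simp [hT, h.gq.tan]) (by simp [← hH, h2])
      have p3 : dv H ψ = 0 := by rw [hH, dv_grad, p1, mulVec_zero]
      have p4 : ψ (ee E H T / T ⬝ᵥ y) = 0 := by
        have := hk ψ
        rw [Derivation.leibniz_div, der_ee, dv_dot, p1, p3]
        simp only [ee, zero_dotProduct, zero_add, dotProduct_zero, add_zero, smul_eq_mul, k0,
          zero_mul] at this ⊢
        linear_combination -(T ⬝ᵥ y)⁻¹ ^ 2 * this
      refine ⟨D - ψ, ?_, ?_⟩
      · rw [hT, dv_grad] at h1 ⊢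
        rw [map_sub, p2, sub_sub_cancel, mulVec_smul, h1, smul_zero]
      · rw [map_sub, sub_eq_self, dv_sub, dv_mulVec, dv_smul, p1, p3, p4]; simp
    · rw [dotProduct_sub, dotProduct_smul, smul_eq_mul, div_mul_cancel₀ _ ty, ee_symm hE, ee,
        sub_self]
  refine nform hG hF h.gq fun K1 K2 k1 k2 => (h.gy _).1 ?_
  have a1 := key K1 k1
  have a2 := key K2 k2
  rw [dotProduct_sub, symm_dot (hE.map _), cv_mulVec, dotProduct_smul, smul_eq_mul] at a1 a2
  simp only [map_sub, map_mul, aeval_lf, aeval_dd, ← hH]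
  linear_combination (cv Ω K1 ⬝ᵥ y) * a2 - (cv Ω K2 ⬝ᵥ y) * a1

end Pool.Agent.MP_249f74_an.H74
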