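import Pool.Agent.MP_249f74_an.H74.Core
import Pool.Agent.MP_249f74_an.H17.CmBerq
import Pool.Agent.MP_249f74_an.H97.Poly

/-!
Passage between affine and homogeneous equations.
-/

open Set
open Matrix hiding J vec
open MvPolynomial hiding funext

namespace Pool.Agent.MP_249f74_an.H74

open H17 (Der)
open H17.Cm (grad der_aeval hat vec sp tg tv aff dir quad J Conf Warp)

variable {C Ω ι : Type} [Field C] [Field Ω] [Algebra C Ω] [Fintype ι] [DecidableEq ι]
variable {F G : MvPolynomial (Option ι) C} {f : MvPolynomial ι C} {q : Option ι → Ω} {d d' : ℕ}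

/-- The affine equation. -/
noncomputable def deh : MvPolynomial (Option ι) C →ₐ[C] MvPolynomial ι C := aeval (hat X)

/-- The affine point. -/
def af (q : Option ι → Ω) : ι → Ω := (q none)⁻¹ • sp q

lemma aeval_deh (x : ι → Ω) (F : MvPolynomial (Option ι) C) :
    aeval x (deh F) = aeval (hat x) F := by
  rw [deh, comp_aeval_apply]; simp only [H17.Cm.aeval_hat]

lemma pderiv_deh (i : ι) (F : MvPolynomial (Option ι) C) :
    pderiv i (deh F) = deh (pderiv (some i) F) := by
  rw [deh, der_aeval, Fintype.sum_option]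
  simp [hat, pderiv_X, Pi.single_apply]

lemma td_deh (F : MvPolynomial (Option ι) C) : (deh F).totalDegree ≤ F.totalDegree := by
  have h : ∀ o, (hat (X : ι → MvPolynomial ι C) o).totalDegree ≤ 1 := fun o => by
    cases o <;> simp [hat]
  rw [deh, aeval_def, eval₂_eq]
  refine totalDegree_finsetSum_le fun m hm => (totalDegree_mul _ _).trans ?_
  rw [algebraMap_eq, totalDegree_C, zero_add]
  refine ((totalDegree_finsetProd _ _).trans (Finset.sum_le_sum fun o _ =>
    (totalDegree_pow _ _).trans ?_)).trans (le_totalDegree hm)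
  simpa using Nat.mul_le_mul_left (m o) (h o)

lemma homog0 (P : MvPolynomial ι C) :
    ∃ F : MvPolynomial (Option ι) C, F.IsHomogeneous P.totalDegree ∧ deh F = P := by
  refine ⟨∑ j ∈ Finset.range (P.totalDegree + 1),
    X none ^ (P.totalDegree - j) * rename some (homogeneousComponent j P),
    IsHomogeneous.sum _ _ _ fun j hj => ?_, ?_⟩
  · have := ((isHomogeneous_X C (none : Option ι)).pow (P.totalDegree - j)).mul
      ((homogeneousComponent_isHomogeneous j P).rename_isHomogeneous (f := some))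
    rwa [one_mul, Nat.sub_add_cancel (Nat.lt_succ_iff.1 (Finset.mem_range.1 hj))] at this
  · conv_rhs => rw [← P.sum_homogeneousComponent]
    rw [map_sum]
    refine Finset.sum_congr rfl fun j _ => ?_
    rw [map_mul, map_pow, deh, aeval_X, aeval_rename]
    simp [hat, Function.comp_def]

/-- The homogeneous equation of a hypersurface. -/
lemma homog (hp : Prime f) (h2 : 2 ≤ f.totalDegree) :
    ∃ F : MvPolynomial (Option ι) C, Hyp F f.totalDegree ∧ deh F = f := by
  obtain ⟨F, h1, h3⟩ := homog0 f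
  have F0 : F ≠ 0 := fun e => hp.ne_zero (by rw [← h3, e, map_zero])
  have key : ∀ A B, F = A * B → IsUnit (deh A) → IsUnit A := fun A B e u => by
    have a0 : A ≠ 0 := left_ne_zero_of_mul (e ▸ F0)
    have b0 : B ≠ 0 := right_ne_zero_of_mul (e ▸ F0)
    have e1 : f = deh A * deh B := by rw [← h3, e, map_mul]
    have h4 := totalDegree_mul (deh A) (deh B)
    have h5 := h1.totalDegree F0
    have h6 := td_deh B
    rw [← e1, (isUnit_iff_totalDegree_of_isReduced.1 u).2] at h4
    rw [e, totalDegree_mul_of_isDomain a0 b0] at h5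
    have h7 : A = MvPolynomial.C (coeff 0 A) := totalDegree_eq_zero_iff_eq_C.1 (by omega)
    rw [h7] at a0 ⊢
    exact (Ne.isUnit fun e => a0 (by rw [e, map_zero])).map _
  refine ⟨F, ⟨Irreducible.prime ⟨fun u => hp.not_unit (h3 ▸ u.map deh), fun A B e => ?_⟩, h1, h2⟩, h3⟩
  exact (hp.irreducible.isUnit_or_isUnit (by rw [← h3, e, map_mul])).imp (key A B e)
    (key B A (e.trans (mul_comm _ _)))

lemma deh_lf (K : Option ι → C) : deh (lf K) = aff K := by
  simp [lf, deh, aff, dotProduct, mul_comm]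

lemma deh_qf (A : Matrix (Option ι) (Option ι) C) : deh (qf A) = quad A := by
  simp [qf, lf, deh, quad, dotProduct, mulVec]

lemma deh_pderiv (h : F.IsHomogeneous d) (o : Option ι) :
    deh (pderiv o F) = tg (deh F) o + o.elim (d * deh F) 0 := by
  cases o with
  | none =>
    have := congrArg deh h.sum_X_mul_pderiv
    simp only [Fintype.sum_option, map_add, map_sum, map_mul, ← pderiv_deh, nsmul_eq_mul,
      map_natCast] at this
    simp only [tg, Option.elim, ← this]
    simp [deh, hat]
  | some i => simp [tg, pderiv_deh]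

lemma deh_dd (h : F.IsHomogeneous d) {c : Option ι → C} (hc : dd c F = 0) :
    deh F ∣ tg (deh F) ⬝ᵥ fun o => MvPolynomial.C (c o) := by
  have := congrArg deh hc
  simp only [dd, map_sum, map_mul, deh_pderiv h, mul_add, Finset.sum_add_distrib, algHom_C,
    algebraMap_eq, map_zero] at this
  refine ⟨-(MvPolynomial.C (c none) * (d : MvPolynomial ι C)), ?_⟩
  rw [Fintype.sum_option fun o => MvPolynomial.C (c o) * o.elim (d * deh F) 0] at this
  simp only [Option.elim, Pi.zero_apply, mul_zero, Finset.sum_const_zero, add_zero] at this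
  simp only [dotProduct, mul_comm (tg _ _)]
  linear_combination this

lemma deh_dd_J (K : Option ι → C) (F : MvPolynomial (Option ι) C) :
    deh (dd (J ι C *ᵥ K) F) = dir (sp K) (deh F) := by
  simp [H17.Cm.J_mulVec, dd, H17.Cm.dir_apply, pderiv_deh, vec]

lemma hat_af (h : q none ≠ 0) : q none • hat (af q) = q := by
  ext (_ | i) <;> simp [hat, af, sp, h]

lemma aeval_hom (h : F.IsHomogeneous d) (h0 : q none ≠ 0) :
    aeval q F = q none ^ d * aeval (af q) (deh F) := by
  rw [aeval_deh, ← H97.aeval_smul_homog h]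
  exact congrArg (aeval · F) (hat_af h0).symm

lemma GenK.q0 (h : GenK F q) (hF : Hyp F d) : q none ≠ 0 := fun e => by
  have := h.linz hF (K := Pi.single none 1) (by simp [cv_single, e])
  simpa using congrFun this none

lemma GenK.aff (h : GenK F q) (hF : Hyp F d) : GenK (deh F) (af q) := fun P => by
  have h0 := h.q0 hF
  obtain ⟨P, p1, rfl⟩ := (homog0 P).imp fun _ h => h.imp_left fun h => (⟨_, h⟩ : ∃ e, _)
  obtain ⟨e, p1⟩ := p1
  refine ⟨fun h1 => map_dvd deh ((h P).1 (by rw [aeval_hom p1 h0, h1, mul_zero])), fun ⟨A, h1⟩ => ?_⟩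
  have := h.zero
  rw [aeval_hom hF.hom h0, mul_eq_zero, or_iff_right (pow_ne_zero _ h0)] at this
  rw [h1, map_mul, this, zero_mul]

lemma GenK.grad_eq (h : GenK F q) (hF : Hyp F d) :
    grad F q = q none ^ (d - 1) • tv (deh F) (af q) := funext fun o => by
  rw [grad, aeval_hom (hF.hom.pderiv (i := o)) (h.q0 hF), deh_pderiv hF.hom]
  cases o <;> simp [tv, (h.aff hF).zero]

lemma ee_J (K K' : Option ι → Ω) : ee (J ι C) K K' = sp K ⬝ᵥ sp K' := by
  rw [ee, H17.Cm.J_map, H17.Cm.J_mulVec, dotProduct_comm, H17.Cm.vec_dot, dotProduct_comm]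

variable [IsAlgClosed C] [CharZero C]

theorem Wh.warp (h : Wh (J ι C) F G) (hG : Hyp G d') : Warp (deh F) (deh G) := by
  obtain ⟨m, B, S, b1, b2⟩ := split_L G
  refine H17.Cm.Warp.of_sub
    { carrier := {K | Lc G K}
      add_mem' := fun {a b} (ha : Lc G a) (hb : Lc G b) c hc => by
        rw [add_dotProduct, ha c hc, hb c hc, add_zero]
      zero_mem' := fun c _ => zero_dotProduct _
      smul_mem' := fun s a (ha : Lc G a) c hc => by rw [smul_dotProduct, ha c hc, smul_zero] }
    ?_ (fun K hK K' hK' => ?_) fun Y hY => deh_dd hG.hom ((b2 Y).1 (funext fun a =>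
      hY _ (lc_row b2 a)))
  · by_contra hn
    push Not at hn
    obtain ⟨K, _, -, _, -, -, y, hy⟩ := gen0 (C := C) hG.prime
    have : CharZero K := charZero_of_injective_algebraMap (algebraMap C K).injective
    have r := (lc_grad G y).rep b1 b2
    by_cases h0 : B = 0
    · exact hy.grad_ne hG.prime (by rw [← r, h0]; simp)
    obtain ⟨a, s, hs⟩ : ∃ a s, B a s ≠ 0 := by
      by_contra h1
      push Not at h1
      exact h0 (Matrix.ext h1)
    refine hy.l3 hG (B a) 0 (grad G y s / algebraMap C K (B a s)) 0 (funext fun j => ?_)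
    have e : algebraMap C K (B a s) * grad G y j = grad G y s * algebraMap C K (B a j) := by
      rw [← r]
      generalize grad G y ᵥ* S.map (algebraMap C K) = t
      simp only [vecMul, dotProduct, Finset.mul_sum, Finset.sum_mul, map_apply]
      exact Finset.sum_congr rfl fun b _ => by
        rw [mul_left_comm, mul_assoc, ← map_mul, ← map_mul,
          hn _ (lc_row b2 a) _ (lc_row b2 b) s j, mul_comm (B a j)]
    have : algebraMap C K (B a s) ≠ 0 := (_root_.map_ne_zero _).2 hs
    simp only [zero_smul, add_zero, Pi.smul_apply, cv_apply, smul_eq_mul]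
    field_simp
    linear_combination e
  · simpa only [map_mul, deh_lf, deh_dd_J] using congrArg deh (h K K' hK hK')

theorem Qh.conf (h : Qh (J ι C) F G) (h1 : 2 ≤ (deh F).totalDegree) (h2 : 2 ≤ (deh G).totalDegree) :
    Conf (deh F) (deh G) := by
  obtain ⟨A, B, a1, a2, a3, a4, a5, a6, a7⟩ := h
  exact H17.Cm.Conf.of_mat a1 a2 a3 a4 a5 (deh_qf A ▸ map_dvd deh a6) (deh_qf B ▸ map_dvd deh a7)
    h1 h2

theorem V3.v3 (h : V3 F G) (hF : Hyp F d) (hG : Hyp G d') :
    ∃ b : Fin 3 → Option ι → C, LinearIndependent C b ∧ ∀ Y : Option ι → C, (∀ a, b a ⬝ᵥ Y = 0) →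
      (deh F ∣ tg (deh F) ⬝ᵥ fun o => MvPolynomial.C (Y o)) ∧
        deh G ∣ tg (deh G) ⬝ᵥ fun o => MvPolynomial.C (Y o) := by
  obtain ⟨B, S, b1, b2, b3⟩ := h
  refine ⟨B, vecMul_injective_iff.1 fun u v e => ?_, fun Y hY =>
    ⟨deh_dd hF.hom (b3 Y (funext hY)), deh_dd hG.hom ((b2 Y).1 (funext hY))⟩⟩
  simpa [b1] using congrArg (· ᵥ* S) e

end Pool.Agent.MP_249f74_an.H74
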