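import Pool.Agent.MP_249f74_an.H90.Geo
import Pool.Agent.MP_249f74_an.H17.Cm

/-!
Linear algebra of points and covectors; linear disjointness.
-/

open Set Matrix

namespace Pool.Agent.MP_249f74_an.H74

open H17 (Der)
open H88 (cl subset_cl)
open H96 (Kil Agr Pres mem_cl_of_kil sep_pres cl_cl)
open H2 (KrS mem_KrS minsup)
open H90 (dv dv_apply kil_range agr_range dv_dot)

section Lin

variable {Ω κ : Type} [Field Ω] [Fintype κ]

lemma mem_of_ann {U : Submodule Ω (κ → Ω)} {K : κ → Ω}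
    (h : ∀ v, (∀ u ∈ U, u ⬝ᵥ v = 0) → K ⬝ᵥ v = 0) : K ∈ U := by
  classical
  refine (Subspace.forall_mem_dualAnnihilator_apply_eq_zero_iff U K).1 fun φ hφ => ?_
  have e : ∀ u : κ → Ω, u ⬝ᵥ (fun i => φ (Pi.single i 1)) = φ u := fun u => by
    rw [LinearMap.pi_apply_eq_sum_univ φ u]
    exact Finset.sum_congr rfl fun i _ => by
      rw [smul_eq_mul]; exact congrArg (fun x => u i * φ x) (funext fun j => by
        simp [Pi.single_apply, eq_comm])
  rw [← e]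
  exact h _ fun u hu => (e u).trans ((Submodule.mem_dualAnnihilator φ).1 hφ u hu)

lemma par1 {T K : κ → Ω} (h : ∀ w, T ⬝ᵥ w = 0 → K ⬝ᵥ w = 0) : ∃ s : Ω, K = s • T := by
  obtain ⟨s, hs⟩ := Submodule.mem_span_singleton.1 (mem_of_ann (U := Submodule.span Ω {T})
    fun v hv => h v (hv T (Submodule.mem_span_singleton_self T)))
  exact ⟨s, hs.symm⟩

lemma par2 {T H K : κ → Ω} (h : ∀ w, T ⬝ᵥ w = 0 → H ⬝ᵥ w = 0 → K ⬝ᵥ w = 0) :
    ∃ a b : Ω, K = a • T + b • H := by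
  obtain ⟨a, b, hs⟩ := Submodule.mem_span_pair.1 (mem_of_ann (U := Submodule.span Ω {T, H})
    fun v hv => h v (hv T (Submodule.subset_span (by simp))) (hv H (Submodule.subset_span (by simp))))
  exact ⟨a, b, hs.symm⟩

lemma eq_zero_of_dot {K : κ → Ω} (h : ∀ w, K ⬝ᵥ w = 0) : K = 0 := by
  classical
  exact funext fun i => by simpa using h (Pi.single i 1)

lemma exists_dot {K : κ → Ω} (h : K ≠ 0) : ∃ w, K ⬝ᵥ w = 1 := by
  obtain ⟨w, hw⟩ := not_forall.1 fun h' => h (eq_zero_of_dot h')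
  exact ⟨(K ⬝ᵥ w)⁻¹ • w, by rw [dotProduct_smul, smul_eq_mul, inv_mul_cancel₀ hw]⟩

/-- A vector that separates two independent covectors. -/
lemma exists_sep {T K : κ → Ω} (h : ∀ s : Ω, K ≠ s • T) : ∃ w, T ⬝ᵥ w = 0 ∧ K ⬝ᵥ w = 1 := by
  by_contra hn
  obtain ⟨s, hs⟩ := par1 (T := T) (K := K) fun w hw => by
    by_contra h0
    exact hn ⟨(K ⬝ᵥ w)⁻¹ • w, by simp [hw], by simp [h0]⟩
  exact h s hs

lemma symm_dot {A : Matrix κ κ Ω} (hA : A.IsSymm) (v w : κ → Ω) :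
    v ⬝ᵥ A *ᵥ w = w ⬝ᵥ A *ᵥ v := by
  rw [dotProduct_mulVec, ← mulVec_transpose, hA.eq, dotProduct_comm]

/-- The range of a symmetric matrix is the annihilator of its kernel. -/
lemma symm_range {A : Matrix κ κ Ω} (hA : A.IsSymm) {K : κ → Ω}
    (h : ∀ v, A *ᵥ v = 0 → K ⬝ᵥ v = 0) : ∃ w, A *ᵥ w = K :=
  mem_of_ann (U := LinearMap.range A.mulVecLin) fun v hv => h v <| eq_zero_of_dot fun w => by
    rw [dotProduct_comm, symm_dot hA, dotProduct_comm]; exact hv _ ⟨w, rfl⟩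

/-- Coordinates on the quotient by a subspace. -/
lemma split (L : Submodule Ω (κ → Ω)) : ∃ (m : ℕ) (B : Matrix (Fin m) κ Ω) (S : Matrix κ (Fin m) Ω),
    B * S = 1 ∧ ∀ c, B *ᵥ c = 0 ↔ c ∈ L := by
  classical
  let b := Module.finBasis Ω ((κ → Ω) ⧸ L)
  let π := b.equivFun.toLinearMap ∘ₗ L.mkQ
  obtain ⟨σ, hσ⟩ := π.exists_rightInverse_of_surjective
    (LinearMap.range_eq_top.2 (b.equivFun.surjective.comp L.mkQ_surjective))
  refine ⟨_, LinearMap.toMatrix' π, LinearMap.toMatrix' σ, ?_, fun c => ?_⟩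
  · rw [← LinearMap.toMatrix'_comp, hσ, LinearMap.toMatrix'_id]
  · rw [LinearMap.toMatrix'_mulVec]
    simp [π]

end Lin

section Const

variable {C Ω κ : Type} [Field C] [Field Ω] [Algebra C Ω]

variable (Ω) in
/-- A constant vector. -/
def cv (c : κ → C) : κ → Ω := fun i => algebraMap C Ω (c i)

@[simp] lemma cv_apply (c : κ → C) (i : κ) : cv Ω c i = algebraMap C Ω (c i) := rfl

@[simp] lemma dv_cv (c : κ → C) (θ : Der C Ω) : dv (cv Ω c) θ = 0 := by ext; simp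

lemma cv_add (a b : κ → C) : cv Ω (a + b) = cv Ω a + cv Ω b := by ext; simp

lemma cv_sub (a b : κ → C) : cv Ω (a - b) = cv Ω a - cv Ω b := by ext; simp

lemma cv_smul (s : C) (a : κ → C) : cv Ω (s • a) = algebraMap C Ω s • cv Ω a := by ext; simp

lemma cv_eq_zero {a : κ → C} : cv Ω a = 0 ↔ a = 0 := by simp [funext_iff]

lemma cv_single [DecidableEq κ] (i : κ) : cv Ω (Pi.single i (1 : C)) = Pi.single i 1 := by
  ext j; by_cases h : j = i <;> simp [h]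

lemma cv_dot [Fintype κ] (a b : κ → C) : cv Ω a ⬝ᵥ cv Ω b = algebraMap C Ω (a ⬝ᵥ b) := by
  simp [dotProduct]

lemma cv_mulVec {α : Type} [Fintype κ] (A : Matrix α κ C) (b : κ → C) :
    A.map (algebraMap C Ω) *ᵥ cv Ω b = cv Ω (A *ᵥ b) := by
  ext; simp [mulVec, dotProduct]

lemma dv_mulVec {α : Type} [Fintype κ] (A : Matrix α κ C) (b : κ → Ω) (θ : Der C Ω) :
    dv (A.map (algebraMap C Ω) *ᵥ b) θ = A.map (algebraMap C Ω) *ᵥ dv b θ := by
  ext; simp [mulVec, dotProduct]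

lemma dv_vecMul {α : Type} [Fintype κ] (A : Matrix κ α C) (b : κ → Ω) (θ : Der C Ω) :
    dv (b ᵥ* A.map (algebraMap C Ω)) θ = dv b θ ᵥ* A.map (algebraMap C Ω) := by
  ext; simp [vecMul, dotProduct, mul_comm]

variable [IsAlgClosed C] [CharZero Ω]

lemma const_of_kil {x : Ω} (h : ∀ θ : Der C Ω, θ x = 0) : ∃ c, algebraMap C Ω c = x :=
  IntermediateField.mem_bot.1 (H17.mem_bot_of_cl (mem_cl_of_kil fun θ _ => h θ))

/-- Linear disjointness. -/
lemma ld1 [Fintype κ] {a b : κ → Ω}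
    (hi : ∀ D : Der C Ω, ∃ D' : Der C Ω, dv a D' = 0 ∧ dv b D' = dv b D)
    (h : a ⬝ᵥ b = 0) {K : κ → Ω} (hK : ∀ c : κ → C, a ⬝ᵥ cv Ω c = 0 → K ⬝ᵥ cv Ω c = 0) :
    K ⬝ᵥ b = 0 := by
  classical
  let M := cl C (range b)
  suffices h' : ∀ s : Finset κ, ∀ w : κ → Ω, (∀ i, w i ∈ M) → a ⬝ᵥ w = 0 → (∀ i ∉ s, w i = 0) →
      K ⬝ᵥ w = 0 from h' Finset.univ b (fun i => subset_cl _ ⟨i, rfl⟩) h (by simp)
  intro s
  induction s using Finset.strongInduction with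
  | H s ih =>
  intro w hw ha hs
  by_cases h0 : w = 0
  · simp [h0]
  obtain ⟨v, v1, ⟨j, hj, v2⟩, v3, v4⟩ := minsup (Δ := {δ : Der C Ω | dv a δ = 0 ∧ Pres M δ})
    (F := (M : Set Ω)) (W := {w | (∀ i, w i ∈ M) ∧ a ⬝ᵥ w = 0})
    (fun w hw i => ⟨fun k => mul_mem (inv_mem (hw.1 i)) (hw.1 k), by simp [hw.2]⟩)
    (fun δ hδ w hw => ⟨fun k => hδ.2 _ (hw.1 k), by
      have := dv_dot a w δ
      rw [hw.2, map_zero, hδ.1, zero_dotProduct, zero_add] at this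
      exact this.symm⟩)
    (fun w hw => hw.1) s w ⟨hw, ha⟩ h0 hs
  have hc : ∀ i, ∃ c, algebraMap C Ω c = v i := fun i =>
    IntermediateField.mem_bot.1 (H17.mem_bot_of_cl (by
      by_contra hn
      obtain ⟨θ, t1, -, t3⟩ := sep_pres (cl_cl _) (S := ∅) (empty_subset _) (v4 i).1 hn
      obtain ⟨D, d1, d2⟩ := hi θ
      have d3 := (agr_range.2 d2).cl
      have := mem_KrS.1 (v4 i).2 D ⟨d1, fun f hf => by rw [d3 f hf]; exact t1 f hf⟩
      rw [d3 _ (v4 i).1, t3] at this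
      exact one_ne_zero this))
  choose c hc using hc
  obtain rfl : v = cv Ω c := funext fun i => (hc i).symm
  have h1 := ih _ (Finset.erase_ssubset hj) (w - w j • cv Ω c)
    (fun i => sub_mem (hw i) (mul_mem (hw j) (v4 i).1)) (by simp [ha, v1.2]) fun i hi => by
      by_cases e : i = j
      · rw [e, Pi.sub_apply, Pi.smul_apply, v2]; simp
      · have : i ∉ s := fun h => hi (Finset.mem_erase.2 ⟨e, h⟩)
        rw [Pi.sub_apply, Pi.smul_apply, hs i this, v3 i this]; simp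
  simpa [hK c v1.2] using h1

end Const

end Pool.Agent.MP_249f74_an.H74
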