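import Pool.Agent.MP_249f74_an.H74.Defs
import Pool.Agent.MP_249f74_an.H96.Alg

/-!
Polynomial vector fields that are tangent to all hyperplane sections by tangent hyperplanes.
-/

open Set Matrix
open MvPolynomial hiding funext

namespace Pool.Agent.MP_249f74_an.H74

open H17 (Der)
open H17.Cm (grad der_aeval)
open H88 (cl subset_cl)
open H90 (dv dv_apply dv_dot dv_smul dv_sub agr_range)

variable {C Ω κ : Type} [Field C] [Field Ω] [Algebra C Ω] [Fintype κ] [DecidableEq κ]
variable {F G : MvPolynomial κ C} {q y w : κ → Ω} {d d' : ℕ}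

section Aux

lemma dvd_of_primes {R : Type} [CommRing R] [IsDomain R] [UniqueFactorizationMonoid R] {a b : R}
    (h0 : a ≠ 0) (h : ∀ p, Prime p → p ∣ a → p ∣ b ∧ ¬p * p ∣ a) : a ∣ b := by
  induction a using UniqueFactorizationMonoid.induction_on_prime with
  | h₁ => exact (h0 rfl).elim
  | h₂ x hx => exact hx.dvd
  | h₃ a p ha hp ih =>
    obtain ⟨h1, h2⟩ := h p hp (dvd_mul_right _ _)
    refine IsRelPrime.mul_dvd (hp.irreducible.isRelPrime_iff_not_dvd.2 fun e =>
      h2 (mul_dvd_mul_left p e)) h1 (ih ha fun r hr e => ?_)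
    exact ⟨(h r hr (e.mul_left p)).1, fun e' => (h r hr (e.mul_left p)).2 (e'.mul_left p)⟩

/-- The projection to a hyperplane. -/
noncomputable def pr {R : Type} [CommRing R] (H : κ → R) (i : κ) :
    MvPolynomial κ R →ₐ[R] MvPolynomial κ R :=
  aeval fun j => X j - if j = i then ∑ k, MvPolynomial.C (H k) * X k else 0

lemma map_pr {R S : Type} [CommRing R] [CommRing S] (f : R →+* S) (H : κ → R) (i : κ)
    (P : MvPolynomial κ R) : map f (pr H i P) = pr (fun k => f (H k)) i (map f P) := by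
  induction P using MvPolynomial.induction_on with
  | C a => simp [pr]
  | add p q hp hq => simp only [map_add, hp, hq]
  | mul_X p j hp => simp only [map_mul, hp]; congr 1; simp [pr, apply_ite (map f)]

lemma dvd_sub_pr (H : κ → Ω) (i : κ) (P : MvPolynomial κ Ω) : lf H ∣ P - pr H i P := by
  induction P using MvPolynomial.induction_on with
  | C a => simp [pr]
  | add p q hp hq => rw [map_add, add_sub_add_comm]; exact hp.add hq
  | mul_X p j hp =>
    have : lf H ∣ X j - pr H i (X j) := by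
      simp only [pr, aeval_X, sub_sub_cancel]
      split_ifs
      · exact dvd_rfl
      · exact dvd_zero _
    rw [map_mul]
    convert (hp.mul_right (X j)).add (this.mul_left (pr H i p)) using 1
    ring

lemma aeval_pr {Ω' : Type} [Field Ω'] [Algebra Ω Ω'] (H : κ → Ω) (i : κ) (z : κ → Ω')
    (P : MvPolynomial κ Ω) :
    aeval z (pr H i P) = aeval (z - (cv Ω' H ⬝ᵥ z) • Pi.single i 1) P := by
  rw [pr, comp_aeval_apply]
  congr 2
  ext j
  by_cases h : j = i <;> simp [h, dotProduct]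

lemma pr_lf {H : κ → Ω} {i : κ} (h : H i = 1) : pr H i (lf H) = 0 := by
  simp [pr, lf, mul_sub, Finset.sum_sub_distrib, h]

lemma grad_pr {Ω' : Type} [Field Ω'] [Algebra Ω Ω'] (H : κ → Ω) (i : κ) (z : κ → Ω')
    (P : MvPolynomial κ Ω) (j : κ) : grad (pr H i P) z j =
      grad P (z - (cv Ω' H ⬝ᵥ z) • Pi.single i 1) j -
        grad P (z - (cv Ω' H ⬝ᵥ z) • Pi.single i 1) i * cv Ω' H j := by
  have e : ∀ k, aeval z (pderiv j (X k - if k = i then ∑ k, MvPolynomial.C (H k) * X k else 0 :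
      MvPolynomial κ Ω)) = (if j = k then 1 else 0) - if k = i then cv Ω' H j else 0 := fun k => by
    have := pderiv_lf H j
    rw [lf] at this
    simp [apply_ite (pderiv j), this, pderiv_X, Pi.single_apply, apply_ite (aeval z), eq_comm]
  rw [grad, pr, der_aeval, map_sum]
  simp only [map_mul, e, ← pr.eq_1, aeval_pr, mul_sub, Finset.sum_sub_distrib]
  simp [grad]

/-- The lemma of Gauss over a valuation ring. -/
lemma gauss (O : ValuationSubring Ω) {P R : MvPolynomial κ O} {Q : MvPolynomial κ Ω}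
    (hP : map (IsLocalRing.residue O) P ≠ 0) (h : map O.subtype P * Q = map O.subtype R) :
    ∃ Q0, map O.subtype Q0 = Q := by
  by_cases h0 : Q = 0
  · exact ⟨0, by simp [h0]⟩
  obtain ⟨m, hm, hx⟩ := Finset.exists_max_image Q.support (fun m => O.valuation (coeff m Q))
    (support_nonempty.2 h0)
  have c0 : coeff m Q ≠ 0 := mem_support_iff.1 hm
  have lift : ∀ Q : MvPolynomial κ Ω, (∀ n, coeff n Q ∈ O) → ∃ Q0, map O.subtype Q0 = Q :=
    fun Q hQ => mem_range_map_iff_coeffs_subset.2 fun c hc => by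
      obtain ⟨n, -, rfl⟩ := mem_coeffs_iff.1 hc
      exact ⟨⟨_, hQ n⟩, rfl⟩
  have le : ∀ n, O.valuation (coeff n Q) ≤ O.valuation (coeff m Q) := fun n => by
    by_cases hn : n ∈ Q.support
    · exact hx n hn
    · rw [notMem_support_iff.1 hn, map_zero]; exact zero_le
  by_cases hc : coeff m Q ∈ O
  · exact lift Q fun n => (O.valuation_le_one_iff _).1 ((le n).trans ((O.valuation_le_one_iff _).2 hc))
  obtain ⟨Q1, h1⟩ := lift (MvPolynomial.C (coeff m Q)⁻¹ * Q) fun n => by
    rw [coeff_C_mul, ← O.valuation_le_one_iff, map_mul, map_inv₀]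
    exact inv_mul_le_one_of_le₀ (le n) zero_le
  let s : O := ⟨(coeff m Q)⁻¹, (O.mem_or_inv_mem _).resolve_left hc⟩
  have h2 : P * Q1 = MvPolynomial.C s * R := map_injective O.subtype Subtype.val_injective (by
    rw [map_mul, h1, map_mul, map_C, ← h, mul_left_comm]; rfl)
  have h3 : IsLocalRing.residue O s = 0 := (IsLocalRing.residue_eq_zero_iff _).2 fun ⟨u, hu⟩ =>
    hc (by
      have : ((u⁻¹ : Oˣ) : O).1 * (coeff m Q)⁻¹ = 1 := by
        have := congrArg Subtype.val u.inv_mul
        rwa [hu] at this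
      rw [mul_inv_eq_one₀ c0] at this
      exact this ▸ ((u⁻¹ : Oˣ) : O).2)
  have h4 : coeff m Q1 = 1 := Subtype.ext (by
    have := congrArg (coeff m) h1
    rwa [coeff_map, coeff_C_mul, inv_mul_cancel₀ c0] at this)
  have h5 := congrArg (map (IsLocalRing.residue O)) h2
  rw [map_mul, map_mul, map_C, h3, C_0, zero_mul, mul_eq_zero, or_iff_right hP] at h5
  have := congrArg (coeff m) h5
  rw [coeff_map, h4, map_one, coeff_zero] at this
  exact (one_ne_zero this).elim

end Aux

section Tower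

variable {K : Type} [Field K] [Algebra C K] [Algebra K Ω] [IsScalarTower C K Ω]

lemma aeval_map' (q : κ → Ω) (F : MvPolynomial κ C) :
    aeval q (map (algebraMap C K) F) = aeval q F := aeval_map_algebraMap K q F

lemma grad_map (q : κ → Ω) (F : MvPolynomial κ C) :
    grad (map (algebraMap C K) F) q = grad F q := by
  ext i; rw [grad, pderiv_map, aeval_map', grad]

lemma aeval_cv (y : κ → K) (F : MvPolynomial κ C) :
    aeval (cv Ω y) F = algebraMap K Ω (aeval y F) :=
  aeval_algebraMap_apply Ω y F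

lemma grad_cv (y : κ → K) (F : MvPolynomial κ C) : grad F (cv Ω y) = cv Ω (grad F y) :=
  funext fun _ => aeval_cv _ _

lemma hs_cv (y w : κ → K) (F : MvPolynomial κ C) :
    hs F (cv Ω y) *ᵥ cv Ω w = cv Ω (hs F y *ᵥ w) := by
  rw [← cv_mulVec]; congr 1; ext i j; exact aeval_cv _ _

lemma GenK.cv {y : κ → K} (h : GenK F y) : GenK F (cv Ω y) := h.map (IsScalarTower.toAlgHom C K Ω)

/-- Derivations over the intermediate field. -/
lemma GenK.sur' [CharZero Ω] {p : MvPolynomial κ K} (h : GenK p q) (hp : Prime p)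
    (hw : grad p q ⬝ᵥ w = 0) : ∃ θ : Der C Ω, (∀ a, θ (algebraMap K Ω a) = 0) ∧ dv q θ = w := by
  obtain ⟨θ, hθ⟩ := h.sur hp hw
  exact ⟨θ.restrictScalars C, θ.map_algebraMap, hθ⟩

end Tower

variable [IsAlgClosed C]

/-- The tangent hyperplane moves. -/
lemma GenK.nf [CharZero Ω] (h : GenK F q) (hF : Hyp F d) :
    ∃ w, grad F q ⬝ᵥ w = 0 ∧ ∀ s : Ω, hs F q *ᵥ w ≠ s • grad F q := by
  by_contra hn
  push Not at hn
  obtain ⟨i, hi⟩ := Function.ne_iff.1 (h.grad_ne hF.prime)
  have hi' : grad F q i ≠ 0 := hi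
  have hc : ∀ j, ∃ c, algebraMap C Ω c = grad F q j / grad F q i := fun j => const_of_kil fun θ => by
    obtain ⟨s, e⟩ := hn _ (h.tan θ)
    rw [← dv_grad] at e
    rw [Derivation.leibniz_div, show θ (grad F q j) = _ from congrFun e j,
      show θ (grad F q i) = _ from congrFun e i]
    simp only [Pi.smul_apply, smul_eq_mul]
    ring
  choose c hc using hc
  exact h.l3 hF c 0 (grad F q i) 0 (funext fun j => by simp [hc, mul_div_cancel₀ _ hi'])

/-- No linear factor over an extension of the constants. -/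
lemma nlin [CharZero Ω] (hF : Hyp F d) {H : κ → Ω} (h0 : H ≠ 0) :
    ¬lf H ∣ map (algebraMap C Ω) F := fun h => by
  obtain ⟨Ω', _, _, _, _, _, z, hz⟩ := gen0 (C := C) (lf_prime h0)
  have : CharZero Ω' := charZero_of_injective_algebraMap (algebraMap Ω Ω').injective
  have e : grad (lf H) z = cv Ω' H := funext fun i => by simp [grad, pderiv_lf]
  have h1 : GenK F z := genK_of_sur hF.prime (by rw [← aeval_map' (K := Ω)]; exact (hz _).2 h)
    (hz.grad_ne (lf_prime h0)) fun w hw => (hz.sur' (C := C) (lf_prime h0) hw).imp fun _ h => h.2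
  obtain ⟨s, hs⟩ := par1 (T := cv Ω' H) (K := grad F z) fun w hw => by
    obtain ⟨θ, -, rfl⟩ := hz.sur' (C := C) (lf_prime h0) (e ▸ hw)
    exact h1.tan θ
  have s0 : s ≠ 0 := fun e => h1.grad_ne hF.prime (by rw [hs, e, zero_smul])
  obtain ⟨w, w1, w2⟩ := h1.nf hF
  obtain ⟨θ, t1, rfl⟩ := hz.sur' (C := C) (w := w) (lf_prime h0) (by
    rw [hs, smul_dotProduct, smul_eq_mul, mul_eq_zero, or_iff_right s0] at w1; rwa [e])
  refine w2 (θ s / s) ?_
  rw [← dv_grad, hs, dv_smul, show dv (cv Ω' H) θ = 0 from funext fun i => t1 _, smul_smul,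
    div_mul_cancel₀ _ s0, smul_zero, add_zero]

lemma pr_ne [CharZero Ω] (hF : Hyp F d) {H : κ → Ω} {i : κ} (h : H i = 1) :
    pr H i (map (algebraMap C Ω) F) ≠ 0 := fun e =>
  nlin hF (H := H) (fun e => by simp [e] at h) (by simpa [e] using dvd_sub_pr H i (map (algebraMap C Ω) F))

/-- Every component of the section by a generic tangent hyperplane is a simple configuration. -/
lemma sec_cfg {K : Type} [Field K] [CharZero K] [Algebra C K] (hF : Hyp F d) (hG : Hyp G d')
    (hne : ¬G ∣ F) {y H : κ → K} (hy : GenK G y) {i : κ} (hi : H i = 1) {s : K}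
    (hH : grad G y = s • H) {p : MvPolynomial κ K} (hp : Prime p)
    (hd : p ∣ pr H i (map (algebraMap C K) F)) :
    ¬p * p ∣ pr H i (map (algebraMap C K) F) ∧
    ∃ (Ω : Type) (_ : Field Ω) (_ : IsAlgClosed Ω) (_ : Algebra K Ω) (_ : Algebra C Ω)
      (_ : IsScalarTower C K Ω) (q : κ → Ω), Cfg F G q (cv Ω y) ∧ Fr C q (cv Ω y) ∧
        ∀ P, aeval q P = 0 → p ∣ pr H i P := by
  obtain ⟨Ω, _, _, _, _, _, z, hz⟩ := gen0 (C := C) hp
  have : CharZero Ω := charZero_of_injective_algebraMap (algebraMap K Ω).injective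
  have H0 : H ≠ 0 := fun e => by simp [e] at hi
  have s0 : algebraMap K Ω s ≠ 0 := by
    rw [_root_.map_ne_zero]; exact fun e => hy.grad_ne hG.prime (by rw [hH, e, zero_smul])
  have hy' : GenK G (cv Ω y) := hy.cv
  have hH' : grad G (cv Ω y) = algebraMap K Ω s • cv Ω H := by rw [grad_cv, hH, cv_smul]
  have kH : ∀ w, grad G (cv Ω y) ⬝ᵥ w = 0 ↔ cv Ω H ⬝ᵥ w = 0 := fun w => by
    rw [hH', smul_dotProduct, smul_eq_mul, mul_eq_zero, or_iff_right s0]
  have Hi : cv Ω H ⬝ᵥ Pi.single i 1 = 1 := by simp [hi]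
  set q := z - (cv Ω H ⬝ᵥ z) • Pi.single i 1 with hq
  have q0 : aeval q F = 0 := by rw [← aeval_map' (K := K), ← aeval_pr]; exact (hz _).2 hd
  have Hq : cv Ω H ⬝ᵥ q = 0 := by simp [hq, hi]
  have su : ∀ w, grad p z ⬝ᵥ w = 0 → ∃ θ : Der C Ω, (∀ a, θ (algebraMap K Ω a) = 0) ∧
      dv q θ = w - (cv Ω H ⬝ᵥ w) • Pi.single i 1 := fun w hw => by
    obtain ⟨θ, t1, t2⟩ := hz.sur' (C := C) hp hw
    refine ⟨θ, t1, ?_⟩
    rw [hq, dv_sub, dv_smul, dv_dot, t2, show dv (cv Ω H) θ = 0 from funext fun i => t1 _,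
      H90.dv_single]
    simp
  have mi : grad p z i = 0 := by
    by_contra hn
    refine nlin hF H0 ((genK_of_sur (q := q) (lf_prime H0) (by rw [aeval_lf, Hq])
      (m := cv Ω H) (fun e => H0 (cv_eq_zero.1 e)) (fun w hw => ?_) _).1 (by rwa [aeval_map']))
    obtain ⟨θ, t1, t2⟩ := su (w - (grad p z ⬝ᵥ w / grad p z i) • Pi.single i 1) (by simp [hn])
    refine ⟨H17.toDer (θ.restrictScalars ℤ) t1, t2.trans ?_⟩
    rw [dotProduct_sub, hw, dotProduct_smul, Hi]; simp
  have U : ∀ w, cv Ω H ⬝ᵥ w = 0 → grad p z ⬝ᵥ w = 0 → ∃ θ : Der C Ω,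
      (∀ a, θ (algebraMap K Ω a) = 0) ∧ dv q θ = w := fun w h1 h2 => by
    simpa [h1] using su w h2
  have nd : ∀ a b : Ω, a • cv Ω H + b • grad p z = 0 → b = 0 := fun a b e => by
    have h1 := congrFun e i
    simp only [Pi.add_apply, Pi.smul_apply, cv_apply, hi, map_one, mi, smul_eq_mul, mul_one,
      mul_zero, add_zero, Pi.zero_apply] at h1
    rw [h1, zero_smul, zero_add, smul_eq_zero] at e
    exact e.resolve_right (hz.grad_ne hp)
  obtain ⟨D, hD⟩ : ∃ D : Der C Ω, cv Ω H ⬝ᵥ dv q D ≠ 0 := by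
    by_contra hn
    push Not at hn
    obtain ⟨w, w1, w2⟩ := hy.nf hG
    obtain ⟨D, hD⟩ := hy'.sur hG.prime (w := cv Ω w) (by rw [grad_cv, cv_dot, w1, map_zero])
    have h1 : cv Ω (hs G y *ᵥ w) ⬝ᵥ q = 0 := by
      have := dv_dot (grad G (cv Ω y)) q D
      rwa [(kH _).2 Hq, map_zero, (kH _).2 (hn D), add_zero, dv_grad, hD, hs_cv, eq_comm] at this
    obtain ⟨a, b, e⟩ := par2 (T := cv Ω H) (H := grad p z) (K := cv Ω (hs G y *ᵥ w))
      fun u u1 u2 => by
        obtain ⟨θ, t1, rfl⟩ := U u u1 u2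
        have := dv_dot (cv Ω (hs G y *ᵥ w)) q θ
        rwa [h1, map_zero, show dv (cv Ω (hs G y *ᵥ w)) θ = 0 from funext fun i => t1 _,
          zero_dotProduct, zero_add, eq_comm] at this
    have b0 : b ≠ 0 := fun b0 => w2 ((hs G y *ᵥ w) i / s) (funext fun j => by
      have e1 := congrFun e i
      have e2 := congrFun e j
      simp only [b0, zero_smul, add_zero, Pi.smul_apply, cv_apply, hi, map_one, smul_eq_mul,
        mul_one] at e1 e2
      rw [← e1, ← map_mul] at e2
      rw [(algebraMap K Ω).injective e2, hH, smul_smul,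
        div_mul_cancel₀ _ ((_root_.map_ne_zero _).1 s0)]
      rfl)
    have Hy := (kH _).1 (hy'.tq hG)
    have h2 : cv Ω (hs G y *ᵥ w) ⬝ᵥ cv Ω y = 0 := by
      rw [cv_dot, dotProduct_comm, symm_dot (hs_symm G y), hs_self hG.hom, dotProduct_smul,
        dotProduct_comm, w1, smul_zero, map_zero]
    rw [e, add_dotProduct, smul_dotProduct, Hy, smul_zero, zero_add, smul_dotProduct, smul_eq_mul,
      mul_eq_zero, or_iff_right b0] at h2
    obtain ⟨θ, t1, t2⟩ := U _ Hy h2
    exact hne ((hy' F).1 (cone hF.hom (funext fun i => t1 _) t2 q0))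
  have gq : GenK F q := genK_of_sur hF.prime q0
    (m := (-(grad p z ⬝ᵥ dv q D / cv Ω H ⬝ᵥ dv q D)) • cv Ω H + (1 : Ω) • grad p z)
    (fun e => one_ne_zero (nd _ _ e)) fun w hw => by
      obtain ⟨θ, -, t2⟩ := U (w - (cv Ω H ⬝ᵥ w / cv Ω H ⬝ᵥ dv q D) • dv q D) (by simp [hD]) (by
        simp only [add_dotProduct, smul_dotProduct, dotProduct_sub, dotProduct_smul,
          smul_eq_mul] at hw ⊢
        linear_combination hw)
      exact ⟨θ + (cv Ω H ⬝ᵥ w / cv Ω H ⬝ᵥ dv q D) • D, by rw [map_add, map_smul, t2, sub_add_cancel]⟩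
  have nT : ∀ a : Ω, grad F q ≠ a • cv Ω H := fun a e => by
    have := gq.tan D
    rw [e, smul_dotProduct, smul_eq_mul, mul_eq_zero, or_iff_left hD] at this
    exact gq.grad_ne hF.prime (by rw [e, this, zero_smul])
  obtain ⟨a, b, e⟩ := par2 (T := cv Ω H) (H := grad p z) (K := grad F q) fun u u1 u2 => by
    obtain ⟨θ, -, rfl⟩ := U u u1 u2
    exact gq.tan θ
  have b0 : b ≠ 0 := fun b0 => nT a (by rw [e, b0, zero_smul, add_zero])
  refine ⟨fun ⟨r, hr⟩ => nT (grad F q i) (funext fun j => ?_), Ω, inferInstance, inferInstance,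
    inferInstance, inferInstance, inferInstance, q, ⟨gq, hy', (kH _).2 Hq, fun w w1 w2 => ?_⟩, ?_,
    fun P hP => (hz _).1 (by rwa [aeval_pr])⟩
  · have := grad_pr H i z (map (algebraMap C K) F) j
    rw [hr, grad_map, ← hq, grad, mul_assoc, Derivation.leibniz, Derivation.leibniz] at this
    simp only [smul_eq_mul, map_add, map_mul, hz.zero, zero_mul, add_zero, mul_zero] at this
    exact sub_eq_zero.1 this.symm
  · rw [kH] at w2
    rw [e, add_dotProduct, smul_dotProduct, w2, smul_zero, zero_add, smul_dotProduct, smul_eq_mul,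
      mul_eq_zero, or_iff_right b0] at w1
    obtain ⟨θ, t1, t2⟩ := U w w2 w1
    exact ⟨θ, funext fun i => t1 _, t2⟩
  · obtain ⟨θ, t1, t2⟩ := hz.sur' (C := C) (w := Pi.single i 1) hp (by simp [mi])
    refine ⟨z i, θ, ?_, funext fun i => t1 _, by simpa using congrFun t2 i⟩
    rw [hq, dv_sub, dv_smul, dv_dot, t2, show dv (cv Ω H) θ = 0 from funext fun i => t1 _,
      H90.dv_single]
    simp [hi]

/-- Orthogonality on all components. -/
theorem ort [CharZero C] (hF : Hyp F d) (hG : Hyp G d') (hne : ¬G ∣ F) (V : κ → MvPolynomial κ C)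
    (h : ∀ (Ω : Type) [Field Ω] [IsAlgClosed Ω] [CharZero Ω] [Algebra C Ω] (q y : κ → Ω),
      Cfg F G q y → Fr C q y → grad G y ⬝ᵥ (fun i => aeval q (V i)) = 0)
    {K1 K2 : κ → C} (h1 : Lc G K1) (h2 : Lc G K2) :
    F ∣ lf K1 * ∑ i, MvPolynomial.C (K2 i) * V i - lf K2 * ∑ i, MvPolynomial.C (K1 i) * V i := by
  obtain ⟨K, _, -, _, -, -, y, hy⟩ := gen0 (C := C) hG.prime
  have : CharZero K := charZero_of_injective_algebraMap (algebraMap C K).injective
  have H0 := hy.grad_ne hG.prime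
  have F0 : map (algebraMap C K) F ≠ 0 := fun e => nlin hF H0 (e ▸ dvd_zero _)
  obtain ⟨p, hp, hd⟩ := WfDvdMonoid.exists_irreducible_factor (a := map (algebraMap C K) F)
    (fun u => by
      have := (hF.hom.map (algebraMap C K)).totalDegree F0
      rw [(isUnit_iff_totalDegree_of_isReduced.1 u).2] at this
      have := hF.two
      omega) F0
  replace hp := hp.prime
  obtain ⟨Ω, _, _, _, _, _, z, hz⟩ := gen0 (C := C) hp
  have : CharZero Ω := charZero_of_injective_algebraMap (algebraMap K Ω).injective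
  have z0 : aeval z (map (algebraMap C K) F) = 0 := (hz _).2 hd
  have gz : GenK F z := genK_of_sur hF.prime (by rwa [aeval_map'] at z0) (hz.grad_ne hp)
    fun w hw => (hz.sur' (C := C) hp hw).imp fun _ h => h.2
  obtain ⟨t, ht⟩ := par1 (T := grad p z) (K := grad F z) fun w hw => by
    obtain ⟨θ, -, rfl⟩ := hz.sur' (C := C) hp hw
    exact gz.tan θ
  have t0 : t ≠ 0 := fun e => gz.grad_ne hF.prime (by rw [ht, e, zero_smul])
  have nz : ∀ H : κ → K, H ≠ 0 → cv Ω H ⬝ᵥ z ≠ 0 := fun H H0 e =>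
    nlin hF H0 (((hp.dvd_prime_iff_associated (lf_prime H0)).1
      ((hz _).1 (by rwa [aeval_lf]))).symm.dvd.trans hd)
  let v : κ → Ω := fun i => aeval z (V i)
  set g := cv Ω (grad G y) ⬝ᵥ v / cv Ω (grad G y) ⬝ᵥ z with hg
  have hv : ∀ P : MvPolynomial κ C, aeval z P ∈ cl C (range z) := fun P =>
    (Algebra.adjoin_le (S := (cl C (range z)).toSubalgebra) (subset_cl _))
      (by rw [Algebra.adjoin_range_eq_range_aeval]; exact ⟨P, rfl⟩)
  have gc : g ∈ cl C (range z) := by
    by_contra hn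
    obtain ⟨O1, o1, o2⟩ := H96.Alg.exists_val (z := g⁻¹) fun e => hn (inv_mem_iff.1 e)
    simp only [ValuationSubring.valuation_le_one_iff] at o1
    suffices g ∈ O1 by
      have g0 : g ≠ 0 := fun e => hn (e ▸ zero_mem _)
      rw [map_inv₀, inv_lt_one₀ (zero_lt_iff.2 ((_root_.map_ne_zero _).2 g0))] at o2
      exact o2.not_ge ((O1.valuation_le_one_iff g).2 this)
    let O := O1.comap (algebraMap K Ω)
    let c : C →+* O := (algebraMap C K).codRestrict O fun a => show algebraMap K Ω _ ∈ O1 by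
      rw [← IsScalarTower.algebraMap_apply]; exact o1 _ (IntermediateField.algebraMap_mem _ a)
    obtain ⟨j, hj⟩ := Function.ne_iff.1 H0
    obtain ⟨i, -, hi⟩ := Finset.exists_max_image Finset.univ (fun i => O.valuation (grad G y i))
      ⟨j, Finset.mem_univ j⟩
    have i0 : grad G y i ≠ 0 := fun e => hj (by
      have := hi j (Finset.mem_univ j)
      rwa [e, map_zero, le_zero_iff, _root_.map_eq_zero] at this)
    let H : κ → O := fun k => ⟨grad G y k / grad G y i, by
      rw [← O.valuation_le_one_iff, map_div₀]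
      exact div_le_one_of_le₀ (hi k (Finset.mem_univ k)) zero_le⟩
    have Hi : H i = 1 := Subtype.ext (div_self i0)
    have Hi' : (fun k => O.subtype (H k)) i = 1 := div_self i0
    have hH : grad G y = grad G y i • fun k => O.subtype (H k) := funext fun k =>
      (mul_div_cancel₀ _ i0).symm
    have mc : ∀ P : MvPolynomial κ C, map O.subtype (map c P) = map (algebraMap C K) P := fun P => by
      rw [MvPolynomial.map_map]; rfl
    let W : MvPolynomial κ O := ∑ k, MvPolynomial.C (H k) * map c (V k)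
    have hW : ∀ (Ω : Type) [Field Ω] [Algebra K Ω] [Algebra C Ω] [IsScalarTower C K Ω] (q : κ → Ω),
        algebraMap K Ω (grad G y i) * aeval q (map O.subtype W) =
          grad G (cv Ω y) ⬝ᵥ fun i => aeval q (V i) := fun Ω _ _ _ _ q => by
      rw [grad_cv, hH, cv_smul, smul_dotProduct]
      simp [W, mc, aeval_map', dotProduct, Hi, -ValuationSubring.coe_subtype]
    obtain ⟨a, ha⟩ := dvd_of_primes (b := pr _ i (map O.subtype W)) (pr_ne hF Hi') fun r hr hd => by
      obtain ⟨s1, Ω, _, _, _, _, _, q, s2, s4, s3⟩ := sec_cfg hF hG hne hy Hi' hH hr hd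
      have : CharZero Ω := charZero_of_injective_algebraMap (algebraMap K Ω).injective
      refine ⟨s3 _ ?_, s1⟩
      have := hW Ω q
      rw [h Ω q _ s2 s4, mul_eq_zero, _root_.map_eq_zero] at this
      exact this.resolve_left i0
    let _ : Algebra C (IsLocalRing.ResidueField O) := ((IsLocalRing.residue O).comp c).toAlgebra
    have : CharZero (IsLocalRing.ResidueField O) :=
      charZero_of_injective_algebraMap (algebraMap C _).injective
    have Hr : (fun k => IsLocalRing.residue O (H k)) i = 1 := by simp [Hi]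
    rw [← mc, ← map_pr, ← map_pr] at ha
    obtain ⟨a, rfl⟩ := gauss O (by rw [map_pr, MvPolynomial.map_map]; exact pr_ne hF Hr) ha.symm
    obtain ⟨b, hb⟩ : lf (fun k => O.subtype (H k)) ∣ map O.subtype (W - map c F * a) := by
      have e1 := dvd_sub_pr (fun k => O.subtype (H k)) i (map O.subtype W)
      have e2 := dvd_sub_pr (fun k => O.subtype (H k)) i (map O.subtype (map c F))
      rw [← map_pr] at e1 e2
      convert e1.sub (e2.mul_right (map O.subtype a)) using 1
      rw [ha, map_sub, map_mul]; ring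
    obtain ⟨b, rfl⟩ := gauss O (P := ∑ k, MvPolynomial.C (H k) * X k) (Q := b)
      (R := W - map c F * a) (fun e => by
        have : lf (fun k => IsLocalRing.residue O (H k)) = 0 := by simpa [lf] using e
        exact one_ne_zero (Hr.symm.trans (congrFun (lf_eq_zero this) i))) (by rw [hb]; simp [lf])
    have e := congrArg (fun P => algebraMap K Ω (grad G y i) * aeval z P) hb
    simp only [map_sub, map_mul, mc, z0, zero_mul, sub_zero, hW, aeval_lf] at e
    have e' : g = aeval z (map O.subtype b) := by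
      rw [hg, div_eq_iff (nz _ H0), ← grad_cv, e, grad_cv]
      nth_rewrite 2 [hH]
      rw [cv_smul, smul_dotProduct, smul_eq_mul]; ring
    rw [e', aeval_def, eval₂_map, eval₂_eq]
    exact sum_mem fun m _ => mul_mem (coeff m b).2
      (prod_mem fun k _ => pow_mem (o1 _ (subset_cl _ ⟨k, rfl⟩)) _)
  have key : ∀ K0 : κ → C, Lc G K0 → cv Ω K0 ⬝ᵥ (v - g • z) = 0 := fun K0 hK => by
    refine ld1 (C := C) (a := cv Ω (grad G y)) (fun D => ?_) ?_ fun c hc =>
      hK.cv c ((hy.cv (Ω := Ω)).dd_zero hG ((congrArg (· ⬝ᵥ _) (grad_cv y G)).trans hc))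
    · obtain ⟨θ, t1, t2⟩ := hz.sur' (C := C) (w := dv z D) hp (by
        have := gz.tan D
        rwa [ht, smul_dotProduct, smul_eq_mul, mul_eq_zero, or_iff_right t0] at this)
      exact ⟨θ, funext fun i => t1 _, funext fun i => (agr_range.2 t2).cl _
        (sub_mem (hv _) (mul_mem gc (subset_cl _ ⟨i, rfl⟩)))⟩
    · rw [dotProduct_sub, dotProduct_smul, smul_eq_mul, hg, div_mul_cancel₀ _ (nz _ H0), sub_self]
  refine (gz _).1 ?_
  have a1 := key K1 h1
  have a2 := key K2 h2
  rw [dotProduct_sub, dotProduct_smul, smul_eq_mul] at a1 a2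
  have e : ∀ K0 : κ → C, aeval z (∑ i, MvPolynomial.C (K0 i) * V i) = cv Ω K0 ⬝ᵥ v := fun K0 => by
    simp [dotProduct, v]
  simp only [map_sub, map_mul, aeval_lf, e]
  linear_combination (cv Ω K1 ⬝ᵥ z) * a2 - (cv Ω K2 ⬝ᵥ z) * a1

end Pool.Agent.MP_249f74_an.H74
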